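import Pool.Agent.X190.AT.Main

set_option autoImplicit false

/-! Large Følner sets in infinite transitive actions. -/

namespace Pool.Agent.X190.AT

universe u z

theorem large {G : Type u} {Ω : Type z} [Group G] [MulAction G Ω] [Infinite Ω]
    (htr : ∀ x y : Ω, ∃ g : G, g • x = y) (hF : Am G Ω) (S : Finset G) (ε : ℝ) (hε : 0 < ε)
    (M : ℕ) : ∃ W : Finset Ω, M ≤ W.card ∧
      ∀ t ∈ S, (({y | y ∈ W ∧ t • y ∉ W} : Set Ω).ncard : ℝ) ≤ ε * W.card := by
  classical
  by_contra hcon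
  push Not at hcon
  have h0 : ∀ W : Finset Ω, (∀ t ∈ S, ∀ y ∈ W, t • y ∈ W) → W.card < M := by
    intro W hW
    by_contra hM
    obtain ⟨t, ht, h1⟩ := hcon W (not_lt.1 hM)
    have h2 : ({y | y ∈ W ∧ t • y ∉ W} : Set Ω) = ∅ := by
      ext y
      simp only [Set.mem_ofPred_eq, Set.mem_empty_iff_false, iff_false, not_and, not_not]
      exact hW t ht y
    rw [h2, Set.ncard_empty, Nat.cast_zero] at h1
    have h3 : 0 ≤ ε * W.card := by positivity
    linarith
  have h1 : ∀ S' : Finset G, S ⊆ S' → ∃ W : Finset Ω, W.Nonempty ∧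
      ∀ t ∈ S', ∀ y ∈ W, t • y ∈ W := by
    intro S' hS'
    obtain ⟨W, hW, h2⟩ := hF S' (min ε (1 / (M + 1))) (lt_min hε (by positivity))
    refine ⟨W, hW, ?_⟩
    have hc : W.card < M := by
      by_contra hM
      obtain ⟨t, ht, h3⟩ := hcon W (not_lt.1 hM)
      have h4 := h2 t (hS' ht)
      have h5 : min ε (1 / (M + 1)) * (W.card : ℝ) ≤ ε * W.card :=
        mul_le_mul_of_nonneg_right (min_le_left _ _) (Nat.cast_nonneg _)
      linarith
    intro t ht y hy
    by_contra hty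
    have h3 := h2 t ht
    have h4 : 0 < ({y | y ∈ W ∧ t • y ∉ W} : Set Ω).ncard := by
      rw [Set.ncard_pos (W.finite_toSet.subset fun y hy => hy.1)]
      exact ⟨y, hy, hty⟩
    have h5 : min ε (1 / (M + 1)) * (W.card : ℝ) ≤ (1 / (M + 1)) * W.card :=
      mul_le_mul_of_nonneg_right (min_le_right _ _) (Nat.cast_nonneg _)
    have h6 : (1 : ℝ) / (M + 1) * W.card < 1 := by
      rw [div_mul_eq_mul_div, one_mul, div_lt_one (by positivity)]
      have : (W.card : ℝ) < M := by exact_mod_cast hc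
      linarith
    have h7 : (1 : ℝ) ≤ ({y | y ∈ W ∧ t • y ∉ W} : Set Ω).ncard := by exact_mod_cast h4
    linarith
  let X : Set ℕ := {n | ∃ W : Finset Ω, (∀ t ∈ S, ∀ y ∈ W, t • y ∈ W) ∧ W.card = n}
  have hXne : X.Nonempty := by
    obtain ⟨W, _, hW⟩ := h1 S (Finset.Subset.refl S)
    exact ⟨W.card, W, hW, rfl⟩
  have hXb : BddAbove X := by
    refine ⟨M, ?_⟩
    rintro n ⟨W, hW, rfl⟩
    exact (h0 W hW).le
  obtain ⟨W0, hW0, hW0c⟩ := Nat.sSup_mem hXne hXb
  have h2 : ∀ W : Finset Ω, (∀ t ∈ S, ∀ y ∈ W, t • y ∈ W) → W ⊆ W0 := by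
    intro W hW
    have h3 : (W ∪ W0).card ∈ X := by
      refine ⟨W ∪ W0, ?_, rfl⟩
      intro t ht y hy
      rw [Finset.mem_union] at hy ⊢
      rcases hy with hy | hy
      · exact Or.inl (hW t ht y hy)
      · exact Or.inr (hW0 t ht y hy)
    have h4 := le_csSup hXb h3
    rw [← hW0c] at h4
    have h5 : W0 = W ∪ W0 := Finset.eq_of_subset_of_card_le Finset.subset_union_right h4
    rw [h5]
    exact Finset.subset_union_left
  obtain ⟨ω, hω⟩ := Infinite.exists_notMem_finset W0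
  choose g hg using fun e : Ω => htr e ω
  obtain ⟨W, ⟨e, he⟩, hW⟩ := h1 (S ∪ W0.image g) Finset.subset_union_left
  have h3 := h2 W (fun t ht y hy => hW t (Finset.mem_union_left _ ht) y hy)
  have h4 := hW (g e) (Finset.mem_union_right _ (Finset.mem_image_of_mem g (h3 he))) e he
  rw [hg] at h4
  exact hω (h3 h4)

end Pool.Agent.X190.AT
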