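import Pool.Agent.X190.AT.Sub2
import Pool.Agent.X190.AT.Big

set_option autoImplicit false
set_option linter.unusedSectionVars false

open scoped InnerProductSpace InnerProduct ENNReal Topology
open Filter

/-! L²-Betti numbers and co-amenable subgroups. -/

namespace Pool.Agent.X190.AT

open Pool.Agent.W649.ZL Pool.Agent.X190.TW

universe u v w z y

section
variable {G : Type u} {K : Type v} {L : Type w} {N : Type y} [Group G] [Fintype K] [Fintype L]
  [Fintype N] [DecidableEq K] [DecidableEq L] [DecidableEq N]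
variable (H : Subgroup G)

theorem out_mem (x : G) : ((x : G ⧸ H).out)⁻¹ * x ∈ H := by
  rw [← QuotientGroup.eq, QuotientGroup.out_eq']

theorem mk_mul_eq (t x : G) : ((t * x : G) : G ⧸ H) = t • (x : G ⧸ H) := rfl

/-- functions supported over a finite set of cosets -/
def Ov (W : Finset (G ⧸ H)) : Set (EE G K) :=
  {F | ∀ (x : G) (k : K), (x : G ⧸ H) ∉ W → F (x, k) = 0}

/-- dimension over the subgroup of a subspace over a finite set of cosets -/
noncomputable def hd (W : Finset (G ⧸ H)) (P : Set (EE G K)) : ℝ :=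
  ∑ k : K, ∑ y ∈ W, (1 - Metric.infDist (dl ((y : G ⧸ H).out, k)) P ^ 2)

/-- cycles over a window -/
theorem cyc_ge [DecidableEq (G ⧸ H)] (W V : Finset (G ⧸ H)) (A : K → L → (G →₀ ℂ)) (T : Finset G)
    (hT : ∀ i j, (A i j).support ⊆ T) (hV : ∀ y, y ∉ V → ∀ t ∈ T, t • y ∉ W)
    (S : EE G K →L[ℂ] EE G L)
    (hSa : ∀ (F : EE G K) (x : G) (j : L), S F (x, j) = ∑ k : K, ∑ t ∈ T, A k j t * F (t * x, k)) :
    kerDimM (sub2 H W V A) ≤ hd H W (Ov H W ∩ {F | S F = 0}) := by
  classical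
  obtain ⟨R, hR, hRk, hRa⟩ := op_sub2 H W V A T hT
  rw [hRk, vd_eq_infDist _ (ContinuousLinearMap.isClosed_ker R), Fintype.sum_prod_type]
  unfold hd
  refine Finset.sum_le_sum fun k _ => ?_
  rw [← Finset.sum_coe_sort W]
  refine Finset.sum_le_sum fun y _ => ?_
  let D : Set (G × K) := {z | (z.1 : G ⧸ H) ∈ W}
  let ι : D → H × (K × W) := fun z => (⟨_, out_mem H z.1.1⟩, (z.1.2, ⟨_, z.2⟩))
  have hι : Function.Injective ι := by
    rintro ⟨⟨x, k1⟩, h1⟩ ⟨⟨x', k2⟩, h2⟩ hh
    obtain ⟨h3, h4⟩ := Prod.mk.inj hh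
    obtain ⟨h5, h6⟩ := Prod.mk.inj h4
    simp only at h5
    subst h5
    have h7 : (x : G ⧸ H) = (x' : G ⧸ H) := congrArg Subtype.val h6
    have h8 : ((x : G ⧸ H).out)⁻¹ * x = ((x' : G ⧸ H).out)⁻¹ * x' := congrArg Subtype.val h3
    rw [h7] at h8
    have h9 : x = x' := mul_left_cancel h8
    subst h9
    rfl
  have hap : ∀ (F : EE H (K × W)) (x : G) (k : K) (h : (x : G ⧸ H) ∈ W),
      pull D ι hι F (x, k) = F (⟨_, out_mem H x⟩, (k, ⟨_, h⟩)) := by
    intro F x k h
    rw [pull_apply, pullFun_mem D ι F (x, k) h]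
  have hap0 : ∀ (F : EE H (K × W)) (x : G) (k : K), (x : G ⧸ H) ∉ W →
      pull D ι hι F (x, k) = 0 := by
    intro F x k h
    rw [pull_apply, pullFun_notMem D ι F (x, k) h]
  refine one_sub_le' _ _ ⟨0, Submodule.zero_mem _⟩ _ _ (pull D ι hι) ?_ ?_ ?_
  · intro F F'
    rw [pull_sub]
    exact norm_pull_le _ _ _ _
  · ext ⟨x, k'⟩
    by_cases hx : (x : G ⧸ H) ∈ W
    · rw [hap _ _ _ hx]
      by_cases h : (x, k') = ((y : G ⧸ H).out, k)
      · obtain ⟨rfl, rfl⟩ := Prod.mk.inj h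
        rw [dl_apply_self]
        have e1 : (⟨_, out_mem H (y : G ⧸ H).out⟩ : H) = 1 := by
          apply Subtype.ext
          change ((((y : G ⧸ H).out : G) : G ⧸ H).out)⁻¹ * (y : G ⧸ H).out = 1
          rw [QuotientGroup.out_eq', inv_mul_cancel]
        have e2 : (⟨_, hx⟩ : W) = y := Subtype.ext (QuotientGroup.out_eq' _)
        rw [e1, e2, dl_apply_self]
      · rw [dl_apply_ne _ _ h, dl_apply_ne]
        intro h1
        obtain ⟨h2, h3⟩ := Prod.mk.inj h1
        obtain ⟨h4, h5⟩ := Prod.mk.inj h3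
        apply h
        rw [h4]
        have h6 : (x : G ⧸ H) = y := congrArg Subtype.val h5
        have h7 : ((x : G ⧸ H).out)⁻¹ * x = 1 := congrArg Subtype.val h2
        rw [h6, inv_mul_eq_one] at h7
        rw [← h7]
    · rw [hap0 _ _ _ hx, dl_apply_ne]
      intro h1
      obtain ⟨h2, h3⟩ := Prod.mk.inj h1
      apply hx
      rw [h2, QuotientGroup.out_eq']
      exact y.2
  · intro F hF
    have hF0 : R F = 0 := hF
    refine ⟨fun x k hx => hap0 F x k hx, ?_⟩
    change S (pull D ι hι F) = 0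
    ext ⟨x, j⟩
    rw [hSa]
    change _ = (0 : ℂ)
    by_cases hx : (x : G ⧸ H) ∈ V
    · have h1 : R F (⟨_, out_mem H x⟩, (j, ⟨_, hx⟩)) = 0 := by
        rw [hF0]
        rfl
      rw [hRa] at h1
      refine Eq.trans ?_ h1
      refine Finset.sum_congr rfl fun k _ => Finset.sum_congr rfl fun t _ => ?_
      congr 1
      by_cases ht : t • (x : G ⧸ H) ∈ W
      · have ht' : ((t * x : G) : G ⧸ H) ∈ W := ht
        rw [dif_pos ht, hap F (t * x) k ht']
        have e1 : (⟨_, out_mem H (t * x)⟩ : H) = hel H t (x : G ⧸ H) * ⟨_, out_mem H x⟩ := by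
          apply Subtype.ext
          change (((t * x : G) : G ⧸ H).out)⁻¹ * (t * x)
            = (hel H t (x : G ⧸ H) : G) * (((x : G ⧸ H).out)⁻¹ * x)
          have h2 := hel_mul H t (x : G ⧸ H)
          have h3 : (hel H t (x : G ⧸ H) : G)
              = (t • (x : G ⧸ H)).out⁻¹ * (t * (x : G ⧸ H).out) := by
            rw [← h2]
            group
          rw [h3, mk_mul_eq]
          group
        rw [e1]
        rfl
      · have ht' : ((t * x : G) : G ⧸ H) ∉ W := ht
        rw [dif_neg ht, hap0 F (t * x) k ht']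
    · apply Finset.sum_eq_zero
      intro k _
      apply Finset.sum_eq_zero
      intro t ht
      have ht' : ((t * x : G) : G ⧸ H) ∉ W := hV _ hx t ht
      rw [hap0 F (t * x) k ht', mul_zero]

/-- the restriction to a window, over the subgroup -/
theorem exists_phi (W : Finset (G ⧸ H)) : ∃ Φ : EE G K → EE H (K × W),
    (∀ F F', ‖Φ F - Φ F'‖ ≤ ‖F - F'‖) ∧
    (∀ F v k (y : W), Φ F (v, (k, y)) = F ((y : G ⧸ H).out * (v : G), k)) ∧
    (∀ k (y : W), Φ (dl ((y : G ⧸ H).out, k)) = dl ((1 : H), (k, y))) := by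
  classical
  let ι : ↥(Set.univ : Set (H × (K × W))) → G × K :=
    fun z => ((z.1.2.2 : G ⧸ H).out * (z.1.1 : G), z.1.2.1)
  have hout : ∀ (y : G ⧸ H) (v : H), ((y.out * (v : G) : G) : G ⧸ H) = y := by
    intro y v
    rw [QuotientGroup.mk_mul_of_mem _ v.2, QuotientGroup.out_eq']
  have hι : Function.Injective ι := by
    rintro ⟨⟨x, k1, y1⟩, _⟩ ⟨⟨x', k2, y2⟩, _⟩ hh
    obtain ⟨h1, h2⟩ := Prod.mk.inj hh
    simp only at h1 h2
    have h3 : y1 = y2 := by
      apply Subtype.ext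
      rw [← hout y1 x, h1, hout]
    subst h2 h3
    have h5 : x = x' := Subtype.ext (mul_left_cancel h1)
    subst h5
    rfl
  have hap : ∀ (F : EE G K) (v : H) (k : K) (y : W),
      pull _ ι hι F (v, (k, y)) = F ((y : G ⧸ H).out * (v : G), k) := by
    intro F v k y
    rw [pull_apply, pullFun_mem _ _ _ _ (Set.mem_univ _)]
  refine ⟨pull _ ι hι, ?_, hap, ?_⟩
  · intro F F'
    rw [pull_sub]
    exact norm_pull_le _ _ _ _
  · intro k y
    ext ⟨v, k', y'⟩
    rw [hap]
    by_cases h : (v, (k', y')) = ((1 : H), (k, y))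
    · obtain ⟨rfl, h2⟩ := Prod.mk.inj h
      obtain ⟨rfl, rfl⟩ := Prod.mk.inj h2
      rw [OneMemClass.coe_one, mul_one, dl_apply_self, dl_apply_self]
    · rw [dl_apply_ne _ _ h, dl_apply_ne]
      intro h1
      obtain ⟨h2, h3⟩ := Prod.mk.inj h1
      have h4 : y' = y := by
        apply Subtype.ext
        rw [← hout y' v, h2, QuotientGroup.out_eq']
      subst h4
      rw [mul_eq_left] at h2
      have h5 : v = 1 := Subtype.ext h2
      exact h (by rw [h5, h3])

/-- the restriction to a smaller window -/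
theorem exists_res {Γ : Type u} [Group Γ] {Ω : Type z} [DecidableEq Ω] (W V : Finset Ω)
    (hVW : V ⊆ W) : ∃ R : EE Γ (K × W) →L[ℂ] EE Γ (K × V), Eqv R ∧
      (∀ F x k (y : V), R F (x, (k, y)) = F (x, (k, ⟨y, hVW y.2⟩))) ∧
      vd (LinearMap.ker (R : EE Γ (K × W) →ₗ[ℂ] EE Γ (K × V)))
        ≤ (Fintype.card K : ℝ) * W.card - Fintype.card K * V.card := by
  classical
  let M : K × W → K × V → (Γ →₀ ℂ) := fun p q =>
    if p.1 = q.1 ∧ (p.2 : Ω) = q.2 then Finsupp.single 1 1 else 0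
  obtain ⟨R, hR, _, hRa⟩ := exists_opT M {1} (by
    rintro ⟨i, a⟩ ⟨j, b⟩ g hg
    change g ∈ (if i = j ∧ (a : Ω) = b then Finsupp.single (1 : Γ) (1 : ℂ) else 0).support at hg
    split_ifs at hg with hh
    · exact Finsupp.support_single_subset hg
    · simp at hg)
  have hRa' : ∀ F x k (y : V), R F (x, (k, y)) = F (x, (k, ⟨y, hVW y.2⟩)) := by
    intro F x k y
    rw [hRa, Finset.sum_eq_single (k, ⟨y, hVW y.2⟩)]
    · rw [Finset.sum_singleton, one_mul]
      change (if k = k ∧ (y : Ω) = y then Finsupp.single (1 : Γ) (1 : ℂ) else 0) 1 * _ = _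
      rw [if_pos ⟨rfl, rfl⟩, Finsupp.single_eq_same, one_mul]
    · rintro ⟨k', y'⟩ _ hne
      rw [Finset.sum_singleton]
      change (if k' = k ∧ (y' : Ω) = y then Finsupp.single (1 : Γ) (1 : ℂ) else 0) 1 * _ = _
      rw [if_neg]
      · simp
      · rintro ⟨h1, h2⟩
        apply hne
        subst h1
        exact Prod.ext rfl (Subtype.ext h2)
    · intro hh
      exact absurd (Finset.mem_univ _) hh
  refine ⟨R, hR, hRa', ?_⟩
  let S : Finset (K × W) := Finset.univ.filter (fun p => (p.2 : Ω) ∈ V)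
  have h1 := vd_ker_le R hR S (by
    intro F hF hF'
    ext ⟨x, k, y⟩
    change F (x, (k, y)) = 0
    by_cases hy : (y : Ω) ∈ V
    · have h2 : R F (x, (k, ⟨y, hy⟩)) = 0 := by
        rw [hF]
        rfl
      rw [hRa'] at h2
      exact h2
    · exact hF' x (k, y) (by simp [S, hy]))
  refine h1.trans (le_of_eq ?_)
  rw [Fintype.card_prod, Fintype.card_coe]
  have h2 : S.card = Fintype.card K * V.card := by
    have h3 : S = (Finset.univ : Finset K) ×ˢ (Finset.univ.filter (fun y : W => (y : Ω) ∈ V)) := by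
      ext ⟨k, y⟩
      simp [S]
    rw [h3, Finset.card_product, Finset.card_univ]
    congr 1
    have h4 : (Finset.univ.filter (fun y : W => (y : Ω) ∈ V)).image (fun y : W => (y : Ω)) = V := by
      ext y
      simp only [Finset.mem_image, Finset.mem_filter, Finset.mem_univ, true_and]
      constructor
      · rintro ⟨a, ha, rfl⟩
        exact ha
      · intro hy
        exact ⟨⟨y, hVW hy⟩, hy, rfl⟩
    conv_rhs => rw [← h4]
    rw [Finset.card_image_of_injective _ Subtype.val_injective]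
  rw [h2]
  push_cast
  ring

/-- boundaries over a window -/
theorem bnd_le [DecidableEq (G ⧸ H)] (W V : Finset (G ⧸ H)) (hVW : V ⊆ W) (A : L → K → (G →₀ ℂ))
    (T : Finset G) (hT : ∀ i j, (A i j).support ⊆ T) (hV : ∀ y ∈ V, ∀ t ∈ T, t • y ∈ W)
    (S : EE G L →L[ℂ] EE G K)
    (hSa : ∀ (F : EE G L) (x : G) (j : K), S F (x, j) = ∑ k : L, ∑ t ∈ T, A k j t * F (t * x, k))
    (Q : Set (EE G K)) (hQ : Q ⊆ closure (Set.range S)) (hQ0 : Q.Nonempty) :
    hd H W Q ≤ (Fintype.card K : ℝ) * W.card - Fintype.card K * V.card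
      + Fintype.card L * W.card - kerDimM (sub2 H W V A) := by
  classical
  obtain ⟨SA, hSA, hSAk, hSAa⟩ := op_sub2 H W V A T hT
  obtain ⟨R, hR, hRa, hRv⟩ := exists_res (K := K) (Γ := H) W V hVW
  obtain ⟨Φ, hΦ, hΦa, hΦd⟩ := exists_phi (K := K) H W
  obtain ⟨Φ', hΦ', hΦa', _⟩ := exists_phi (K := L) H W
  let B : Submodule ℂ (EE H (K × V)) :=
    (LinearMap.range (SA : EE H (L × W) →ₗ[ℂ] EE H (K × V))).topologicalClosure
  have hB : W649.ZL.Inv B := by
    apply Inv.topologicalClosure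
    rintro k _ ⟨F, rfl⟩
    exact ⟨tr k F, hSA k F⟩
  have hBc : IsClosed (B : Set (EE H (K × V))) := Submodule.isClosed_topologicalClosure _
  let U : Submodule ℂ (EE H (K × W)) := B.comap (R : EE H (K × W) →ₗ[ℂ] EE H (K × V))
  have hU : W649.ZL.Inv U := by
    intro k F hF
    change R (tr k F) ∈ B
    rw [hR k F]
    exact hB k _ hF
  have hUc : IsClosed (U : Set (EE H (K × W))) := hBc.preimage R.continuous
  -- comparison
  have h1 : hd H W Q ≤ vd U := by
    rw [vd_eq_infDist _ hUc, Fintype.sum_prod_type]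
    unfold hd
    refine Finset.sum_le_sum fun k _ => ?_
    rw [← Finset.sum_coe_sort W]
    refine Finset.sum_le_sum fun y _ => ?_
    refine one_sub_le' _ _ hQ0 _ _ Φ hΦ (hΦd k y) ?_
    intro F hF
    have hcont : Continuous (fun F => R (Φ F)) := by
      apply R.continuous.comp
      apply LipschitzWith.continuous (K := 1)
      apply LipschitzWith.of_dist_le_mul
      intro a b
      rw [dist_eq_norm, dist_eq_norm, NNReal.coe_one, one_mul]
      exact hΦ a b
    change R (Φ F) ∈ B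
    have h2 : (fun F => R (Φ F)) '' closure (Set.range S) ⊆ (B : Set (EE H (K × V))) := by
      refine (image_closure_subset_closure_image hcont).trans ?_
      apply closure_minimal _ hBc
      rintro _ ⟨_, ⟨c, rfl⟩, rfl⟩
      apply Submodule.le_topologicalClosure
      refine ⟨Φ' c, ?_⟩
      change SA (Φ' c) = R (Φ (S c))
      ext ⟨v, j, y⟩
      rw [hRa, hΦa, hSAa, hSa]
      refine Finset.sum_congr rfl fun k _ => Finset.sum_congr rfl fun t ht => ?_
      congr 1
      rw [dif_pos (hV y y.2 t ht), hΦa']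
      rw [Subgroup.coe_mul, ← mul_assoc, hel_mul, mul_assoc]
    exact h2 ⟨F, hQ hF, rfl⟩
  have h2 := rank_nullity R hR hU hUc
  have h3 : vd (U ⊓ LinearMap.ker (R : EE H (K × W) →ₗ[ℂ] EE H (K × V)))
      ≤ (Fintype.card K : ℝ) * W.card - Fintype.card K * V.card :=
    (vd_mono inf_le_right).trans hRv
  have h4 : vd (U.map (R : EE H (K × W) →ₗ[ℂ] EE H (K × V)))
      ≤ vd (LinearMap.range (SA : EE H (L × W) →ₗ[ℂ] EE H (K × V))) := by
    rw [← vd_closure (LinearMap.range (SA : EE H (L × W) →ₗ[ℂ] EE H (K × V)))]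
    apply vd_mono
    rintro _ ⟨F, hF, rfl⟩
    exact hF
  have h5 := ker_add_range SA hSA
  rw [← hSAk, Fintype.card_prod, Fintype.card_coe] at h5
  push_cast at h5
  linarith

/-- **The inequality for one window.** -/
theorem betti_window [DecidableEq (G ⧸ H)] (A' : L → K → (G →₀ ℂ)) (A : K → N → (G →₀ ℂ))
    (T : Finset G) (hT' : ∀ i j, (A' i j).support ⊆ T) (hT : ∀ i j, (A i j).support ⊆ T)
    (S' : EE G L →L[ℂ] EE G K) (S : EE G K →L[ℂ] EE G N)
    (hSa' : ∀ (F : EE G L) (x : G) (j : K), S' F (x, j)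
      = ∑ k : L, ∑ t ∈ T, A' k j t * F (t * x, k))
    (hSa : ∀ (F : EE G K) (x : G) (j : N), S F (x, j) = ∑ k : K, ∑ t ∈ T, A k j t * F (t * x, k))
    (W : Finset (G ⧸ H)) (b : ℝ)
    (hb : ∀ t ∈ T, ((W.filter fun y => t • y ∉ W).card : ℝ) ≤ b)
    (hb' : ∀ t ∈ T, ((W.filter fun y => t⁻¹ • y ∉ W).card : ℝ) ≤ b) (β : ℝ)
    (Q : Set (EE G K)) (hQ : Q ⊆ closure (Set.range S')) (hQ0 : Q.Nonempty)
    (hβ : hd H W (Ov H W ∩ {F | S F = 0}) ≤ β + hd H W Q) :
    (W.card : ℝ) * (kerDimM A + kerDimM A' - Fintype.card L)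
      ≤ β + (2 * Fintype.card N + Fintype.card K) * (T.card * b) := by
  classical
  let V := W.filter (fun y => ∀ t ∈ T, t • y ∈ W)
  let P := W ∪ T.biUnion (fun t => W.image (fun y => t⁻¹ • y))
  have hV : ∀ y ∈ V, ∀ t ∈ T, t • y ∈ W := fun y hy => (Finset.mem_filter.1 hy).2
  have hP : ∀ y, y ∉ P → ∀ t ∈ T, t • y ∉ W := by
    intro y hy t ht hty
    apply hy
    rw [Finset.mem_union, Finset.mem_biUnion]
    right
    refine ⟨t, ht, ?_⟩
    rw [Finset.mem_image]
    exact ⟨t • y, hty, inv_smul_smul t y⟩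
  have hWV : ((W \ V).card : ℝ) ≤ T.card * b := by
    have h4 : W \ V ⊆ T.biUnion (fun t => W.filter fun y => t • y ∉ W) := by
      intro y hy
      rw [Finset.mem_sdiff] at hy
      rw [Finset.mem_biUnion]
      by_contra hcon
      push Not at hcon
      apply hy.2
      rw [Finset.mem_filter]
      refine ⟨hy.1, ?_⟩
      intro t ht
      by_contra h5
      exact hcon t ht (Finset.mem_filter.2 ⟨hy.1, h5⟩)
    have h5 : ((W \ V).card : ℝ) ≤ ∑ t ∈ T, ((W.filter fun y => t • y ∉ W).card : ℝ) := by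
      exact_mod_cast (Finset.card_le_card h4).trans Finset.card_biUnion_le
    refine h5.trans ((Finset.sum_le_sum hb).trans ?_)
    rw [Finset.sum_const, nsmul_eq_mul]
  have hPW : ((P \ W).card : ℝ) ≤ T.card * b := by
    have h4 : P \ W ⊆ T.biUnion (fun t => (W.filter fun y => t⁻¹ • y ∉ W).image
        (fun y => t⁻¹ • y)) := by
      intro y hy
      rw [Finset.mem_sdiff, Finset.mem_union, Finset.mem_biUnion] at hy
      rw [Finset.mem_biUnion]
      obtain ⟨t, ht, hty⟩ := hy.1.resolve_left hy.2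
      refine ⟨t, ht, ?_⟩
      rw [Finset.mem_image] at hty ⊢
      obtain ⟨y', hy', rfl⟩ := hty
      exact ⟨y', Finset.mem_filter.2 ⟨hy', hy.2⟩, rfl⟩
    have h5 : ((P \ W).card : ℝ) ≤ ∑ t ∈ T, ((W.filter fun y => t⁻¹ • y ∉ W).card : ℝ) := by
      have h7 : (P \ W).card ≤ ∑ t ∈ T, (W.filter fun y => t⁻¹ • y ∉ W).card :=
        (Finset.card_le_card h4).trans (Finset.card_biUnion_le.trans
          (Finset.sum_le_sum fun t _ => Finset.card_image_le))
      exact_mod_cast h7
    refine h5.trans ((Finset.sum_le_sum hb').trans ?_)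
    rw [Finset.sum_const, nsmul_eq_mul]
  have hPV : ((P \ V).card : ℝ) ≤ 2 * (T.card * b) := by
    have h1 : P \ V ⊆ (P \ W) ∪ (W \ V) := by
      intro y hy
      rw [Finset.mem_sdiff] at hy
      rw [Finset.mem_union, Finset.mem_sdiff, Finset.mem_sdiff]
      by_cases h : y ∈ W
      · exact Or.inr ⟨h, hy.2⟩
      · exact Or.inl ⟨hy.1, h⟩
    have h2 : ((P \ V).card : ℝ) ≤ ((P \ W).card : ℝ) + ((W \ V).card : ℝ) := by
      exact_mod_cast (Finset.card_le_card h1).trans (Finset.card_union_le _ _)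
    linarith
  have hWV' : (W.card : ℝ) - V.card ≤ T.card * b := by
    have h1 : ((W \ V).card : ℝ) = W.card - V.card := by
      rw [Finset.card_sdiff_of_subset (Finset.filter_subset _ _),
        Nat.cast_sub (Finset.card_le_card (Finset.filter_subset _ _))]
    rw [← h1]
    exact hWV
  have e1 := win_ge W V A T hT hV
  have e2 := win_mono W V P ((Finset.filter_subset _ _).trans Finset.subset_union_left) A
  have e3 := cyc_ge H W P A T hT hP S hSa
  rw [← kerDimM_sub2_eq] at e3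
  have e4 := bnd_le H W V (Finset.filter_subset _ _) A' T hT' hV S' hSa' Q hQ hQ0
  rw [← kerDimM_sub2_eq] at e4
  have e5 := win_ge W V A' T hT' hV
  have hN : (0 : ℝ) ≤ Fintype.card N := Nat.cast_nonneg _
  have hK : (0 : ℝ) ≤ Fintype.card K := Nat.cast_nonneg _
  have f1 := mul_le_mul_of_nonneg_left hPV hN
  have f2 := mul_le_mul_of_nonneg_left hWV' hK
  nlinarith [e1, e2, e3, e4, e5, f1, f2, hβ]

/-- **Vanishing.** -/
theorem betti_zero (hF : Am G (G ⧸ H)) (hinf : Infinite (G ⧸ H)) (A' : L → K → (G →₀ ℂ))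
    (A : K → N → (G →₀ ℂ)) (S' : EE G L →L[ℂ] EE G K) (S : EE G K →L[ℂ] EE G N) (T : Finset G)
    (hT' : ∀ i j, (A' i j).support ⊆ T) (hT : ∀ i j, (A i j).support ⊆ T)
    (hSa' : ∀ (F : EE G L) (x : G) (j : K), S' F (x, j)
      = ∑ k : L, ∑ t ∈ T, A' k j t * F (t * x, k))
    (hSa : ∀ (F : EE G K) (x : G) (j : N), S F (x, j) = ∑ k : K, ∑ t ∈ T, A k j t * F (t * x, k))
    (β : ℝ) (hβ : ∀ W : Finset (G ⧸ H), ∃ Q : Set (EE G K), Q ⊆ closure (Set.range S') ∧
      Q.Nonempty ∧ hd H W (Ov H W ∩ {F | S F = 0}) ≤ β + hd H W Q) :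
    kerDimM A + kerDimM A' - Fintype.card L ≤ 0 := by
  classical
  apply le_of_forall_pos_le_add
  intro δ hδ
  rw [zero_add]
  set C : ℝ := (2 * Fintype.card N + Fintype.card K) * T.card with hC
  have hC0 : 0 ≤ C := by positivity
  obtain ⟨M, hM⟩ := exists_nat_gt (2 * |β| / δ)
  obtain ⟨W, hWM, hW⟩ := large (fun x y => MulAction.exists_smul_eq G x y) hF
    (T ∪ T.image (fun t => t⁻¹)) (δ / (2 * (C + 1))) (by positivity) (M + 1)
  obtain ⟨Q, hQ, hQ0, hQβ⟩ := hβ W
  have hW' : ∀ t ∈ T ∪ T.image (fun t => t⁻¹),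
      ((W.filter fun y => t • y ∉ W).card : ℝ) ≤ δ / (2 * (C + 1)) * W.card := by
    intro t ht
    refine le_trans (le_of_eq ?_) (hW t ht)
    rw [← Set.ncard_coe_finset, Finset.coe_filter]
  have h1 := betti_window H A' A T hT' hT S' S hSa' hSa W (δ / (2 * (C + 1)) * W.card)
    (fun t ht => hW' t (Finset.mem_union_left _ ht))
    (fun t ht => hW' t⁻¹ (Finset.mem_union_right _ (Finset.mem_image_of_mem _ ht)))
    β Q hQ hQ0 hQβ
  have hWpos : (0 : ℝ) < W.card := by
    have : 0 < W.card := by omega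
    exact_mod_cast this
  have h2 : (2 * Fintype.card N + Fintype.card K) * (T.card * (δ / (2 * (C + 1)) * W.card))
      = (C / (C + 1)) * (δ / 2 * W.card) := by
    rw [hC]
    field_simp
  have h3 : C / (C + 1) ≤ 1 := by
    rw [div_le_one (by positivity)]
    linarith
  have h4 : (C / (C + 1)) * (δ / 2 * W.card) ≤ δ / 2 * W.card := by
    have := mul_le_mul_of_nonneg_right h3 (by positivity : (0 : ℝ) ≤ δ / 2 * W.card)
    rwa [one_mul] at this
  have h5 : β ≤ δ / 2 * W.card := by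
    have h6 : (M : ℝ) ≤ W.card := by
      have : M ≤ W.card := by omega
      exact_mod_cast this
    have h7 : 2 * |β| / δ < W.card := lt_of_lt_of_le hM h6
    rw [div_lt_iff₀ hδ] at h7
    have h8 := le_abs_self β
    linarith
  have h6 : (W.card : ℝ) * (kerDimM A + kerDimM A' - Fintype.card L) ≤ W.card * δ := by
    rw [h2] at h1
    linarith
  exact le_of_mul_le_mul_left h6 hWpos

end

end Pool.Agent.X190.AT
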