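import Pool.Agent.X190.AT.Win

set_option autoImplicit false
set_option linter.unusedSectionVars false

open scoped InnerProductSpace InnerProduct ENNReal Topology
open Filter

/-! Windows of twisted matrices. -/

namespace Pool.Agent.X190.AT

open Pool.Agent.W649.ZL Pool.Agent.X190.TW

universe u v w z y

section
variable {G : Type u} {K : Type v} {L : Type w} {N : Type y} [Group G] [Fintype K] [Fintype L]
  [Fintype N] [DecidableEq K] [DecidableEq L] [DecidableEq N]
variable {Ω : Type z} [MulAction G Ω] [DecidableEq Ω]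

theorem cocycle_mul (ρ : G →* Matrix N N ℂ) (s : Ω → Matrix N N ℂ) (hs : ∀ y, IsUnit (s y))
    (c : G → Ω → Matrix N N ℂ) (h : ∀ g y, ρ g * s y = s (g • y) * c g y) (g k : G) (y : Ω) :
    c g (k • y) * c k y = c (g * k) y := by
  apply (hs ((g * k) • y)).mul_left_cancel
  rw [← h, map_mul, mul_assoc, h k y, ← mul_assoc (s _), mul_smul, ← h g (k • y), mul_assoc]

theorem cocycle_one (ρ : G →* Matrix N N ℂ) (s : Ω → Matrix N N ℂ) (hs : ∀ y, IsUnit (s y))
    (c : G → Ω → Matrix N N ℂ) (h : ∀ g y, ρ g * s y = s (g • y) * c g y) (y : Ω) :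
    c 1 y = 1 := by
  apply (hs ((1 : G) • y)).mul_left_cancel
  rw [← h, map_one, one_mul, one_smul, mul_one]

/-- the untwisted matrix with one more index -/
noncomputable def ten {K' L' : Type*} (A : K' → L' → (G →₀ ℂ)) : K' × N → L' × N → (G →₀ ℂ) :=
  fun p q => if p.2 = q.2 then A p.1 q.1 else 0

theorem kerDimM_ten {K' L' : Type*} [Fintype K'] [Fintype L'] [DecidableEq K'] [DecidableEq L']
    (A : K' → L' → (G →₀ ℂ)) :
    kerDimM (ten (N := N) A) = Fintype.card N * kerDimM A := by
  refine kerDimM_unitary A (ten A) 1 (fun g => ?_) (fun _ => 1) (fun _ _ _ h => absurd rfl h) ?_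
  · rw [MonoidHom.one_apply, one_mul, star_one]
  · intro i a j b g
    rw [MonoidHom.one_apply, MonoidHom.one_apply, Units.val_one, one_mul]
    unfold ten
    by_cases hab : a = b
    · subst hab
      simp
    · simp [hab]

theorem win_cocycle (W : Finset Ω) (A : K → L → (G →₀ ℂ)) (B : K × N → L × N → (G →₀ ℂ))
    (ρ : G →* Matrix N N ℂ) (hB : ∀ i a j b g, B (i, a) (j, b) g = A i j g * ρ g a b)
    (s : Ω → Matrix N N ℂ) (hs : ∀ y, IsUnit (s y)) (c : G → Ω → Matrix N N ℂ)
    (hc : ∀ g y, c g y * star (c g y) = 1) (h : ∀ g y, ρ g * s y = s (g • y) * c g y) :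
    kerDimM (win W W B) = Fintype.card N * kerDimM (win W W A) := by
  classical
  -- the support
  obtain ⟨T, hT⟩ := exists_supp A
  have hwin : ∀ (p : K × W) (q : L × W) (t : G), win W W A p q t
      = if t • (q.2 : Ω) = (p.2 : Ω) then A p.1 q.1 t else 0 := by
    intro p q t
    split_ifs with hh
    · exact win_apply_self _ _ _ _ _ _ hh
    · exact win_apply_ne _ _ _ _ _ _ hh
  have hTw : ∀ p q, (win W W A p q).support ⊆ T := by
    intro p q t ht
    apply hT p.1 q.1
    rw [Finsupp.mem_support_iff] at ht ⊢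
    intro h0
    apply ht
    rw [hwin, h0, ite_self]
  -- first step
  let B1 : K × (N × W) → L × (N × W) → (G →₀ ℂ) := fun p q =>
    win W W B ((p.1, p.2.1), p.2.2) ((q.1, q.2.1), q.2.2)
  have h1 : kerDimM B1 = kerDimM (win W W B) :=
    kerDimM_reindex (win W W B) (Equiv.prodAssoc K N W).symm (Equiv.prodAssoc L N W).symm
  have hB1 : ∀ i a (y : W) j b (y' : W) g, B1 (i, (a, y)) (j, (b, y')) g
      = win W W A (i, y) (j, y') g * ρ g a b := by
    intro i a y j b y' g
    by_cases hh : g • (y' : Ω) = (y : Ω)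
    · have e1 : B1 (i, (a, y)) (j, (b, y')) g = B (i, a) (j, b) g :=
        win_apply_self W W B ((i, a), y) ((j, b), y') g hh
      have e2 : win W W A (i, y) (j, y') g = A i j g :=
        win_apply_self W W A (i, y) (j, y') g hh
      rw [e1, e2, hB]
    · have e1 : B1 (i, (a, y)) (j, (b, y')) g = 0 :=
        win_apply_ne W W B ((i, a), y) ((j, b), y') g hh
      have e2 : win W W A (i, y) (j, y') g = 0 :=
        win_apply_ne W W A (i, y) (j, y') g hh
      rw [e1, e2, zero_mul]
  -- second step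
  let C1 : K × (N × W) → L × (N × W) → (G →₀ ℂ) := fun p q =>
    Finsupp.onFinset (win W W A (p.1, p.2.2) (q.1, q.2.2)).support
      (fun t => win W W A (p.1, p.2.2) (q.1, q.2.2) t * c t q.2.2 p.2.1 q.2.1) (by
        intro g hg
        rw [Finsupp.mem_support_iff]
        intro h0
        exact hg (by rw [h0, zero_mul]))
  have hC1 : ∀ i a (y : W) j b (y' : W) g, C1 (i, (a, y)) (j, (b, y')) g
      = win W W A (i, y) (j, y') g * c g y' a b := fun i a y j b y' g => rfl
  let V : Matrix (N × W) (N × W) ℂ := Matrix.blockDiagonal (fun y : W => s y)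
  have hVe : ∀ (a : N) (y : W) (b : N) (y' : W), V (a, y) (b, y')
      = if y = y' then s y a b else 0 := fun a y b y' => Matrix.blockDiagonal_apply' _ _ _ _ _
  have hV : IsUnit V := by
    choose r hr using fun y : W => (hs (y : Ω)).exists_right_inv
    have h2 : V * Matrix.blockDiagonal r = 1 := by
      rw [← Matrix.blockDiagonal_mul]
      simp only [hr]
      exact Matrix.blockDiagonal_one
    exact IsUnit.of_mul_eq_one _ h2
  have h2 : kerDimM B1 = kerDimM C1 := by
    refine kerDimM_conj B1 C1 V hV ?_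
    rintro i ⟨a, y⟩ j ⟨b, y'⟩ g
    rw [Fintype.sum_prod_type, Fintype.sum_prod_type]
    have e1 : ∀ x : N, ∑ z : W, B1 (i, (a, y)) (j, (x, z)) g * V (x, z) (b, y')
        = win W W A (i, y) (j, y') g * (ρ g a x * s y' x b) := by
      intro x
      rw [Finset.sum_eq_single y']
      · rw [hB1, hVe, if_pos rfl, mul_assoc]
      · intro z _ hz
        rw [hVe, if_neg hz, mul_zero]
      · intro hh
        exact absurd (Finset.mem_univ _) hh
    have e2 : ∀ x : N, ∑ z : W, V (a, y) (x, z) * C1 (i, (x, z)) (j, (b, y')) g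
        = win W W A (i, y) (j, y') g * (s y a x * c g y' x b) := by
      intro x
      rw [Finset.sum_eq_single y]
      · rw [hC1, hVe, if_pos rfl]
        ring
      · intro z _ hz
        rw [hVe, if_neg (Ne.symm hz), zero_mul]
      · intro hh
        exact absurd (Finset.mem_univ _) hh
    simp only [e1, e2]
    rw [← Finset.mul_sum, ← Finset.mul_sum, ← Matrix.mul_apply, ← Matrix.mul_apply, hwin]
    split_ifs with hh
    · rw [h g y', hh]
    · rw [zero_mul, zero_mul]
  -- third step
  let D1 : K × (N × W) → L × (N × W) → (G →₀ ℂ) := fun p q =>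
    ten (N := N) (win W W A) ((p.1, p.2.2), p.2.1) ((q.1, q.2.2), q.2.1)
  have hD1 : ∀ i a (y : W) j b (y' : W) g, D1 (i, (a, y)) (j, (b, y')) g
      = if a = b then win W W A (i, y) (j, y') g else 0 := by
    intro i a y j b y' g
    change (if a = b then win W W A (i, y) (j, y') else 0) g = _
    split_ifs <;> rfl
  have h3 : kerDimM D1 = Fintype.card N * kerDimM (win W W A) := by
    rw [← kerDimM_ten]
    let e : K × (N × W) ≃ (K × W) × N :=
      { toFun := fun p => ((p.1, p.2.2), p.2.1)
        invFun := fun p => (p.1.1, (p.2, p.1.2))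
        left_inv := fun _ => rfl
        right_inv := fun _ => rfl }
    let f : L × (N × W) ≃ (L × W) × N :=
      { toFun := fun p => ((p.1, p.2.2), p.2.1)
        invFun := fun p => (p.1.1, (p.2, p.1.2))
        left_inv := fun _ => rfl
        right_inv := fun _ => rfl }
    exact kerDimM_reindex (ten (N := N) (win W W A)) e f
  have hTC : ∀ p q, (C1 p q).support ⊆ T := by
    rintro ⟨i, a, y⟩ ⟨j, b, y'⟩ g hg
    apply hTw (i, y) (j, y')
    rw [Finsupp.mem_support_iff] at hg ⊢
    intro h0
    exact hg (by rw [hC1, h0, zero_mul])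
  have hTD : ∀ p q, (D1 p q).support ⊆ T := by
    rintro ⟨i, a, y⟩ ⟨j, b, y'⟩ g hg
    apply hTw (i, y) (j, y')
    rw [Finsupp.mem_support_iff] at hg ⊢
    intro h0
    exact hg (by rw [hD1, h0, ite_self])
  obtain ⟨E, hE, hEk, hEa⟩ := exists_opT C1 T hTC
  obtain ⟨D, hD, hDk, hDa⟩ := exists_opT D1 T hTD
  let M : G → Matrix (N × W) (N × W) ℂ := fun x => Matrix.blockDiagonal (fun y : W => c x⁻¹ y)
  have hMe : ∀ (x : G) (a : N) (y : W) (b : N) (y' : W), M x (a, y) (b, y')
      = if y = y' then c x⁻¹ y a b else 0 := fun x a y b y' => Matrix.blockDiagonal_apply' _ _ _ _ _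
  have hM : ∀ x, M x * star (M x) = 1 := by
    intro x
    change Matrix.blockDiagonal _ * star (Matrix.blockDiagonal _) = 1
    rw [Matrix.star_eq_conjTranspose, Matrix.blockDiagonal_conjTranspose,
      ← Matrix.blockDiagonal_mul]
    simp only [← Matrix.star_eq_conjTranspose, hc]
    exact Matrix.blockDiagonal_one
  have hM1 : M 1 = 1 := by
    change Matrix.blockDiagonal _ = 1
    simp only [inv_one, cocycle_one ρ s hs c h]
    exact Matrix.blockDiagonal_one
  have hmul : ∀ {K' : Type v} [Fintype K'] [DecidableEq K'] (F : EE G (K' × (N × W))) (x : G)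
      (k : K') (b : N) (y : W),
      mph M hM F (x, (k, (b, y))) = ∑ a : N, F (x, (k, (a, y))) * c x⁻¹ y a b := by
    intro K' _ _ F x k b y
    rw [mph_apply, Fintype.sum_prod_type]
    refine Finset.sum_congr rfl fun a _ => ?_
    rw [Finset.sum_eq_single y]
    · rw [hMe, if_pos rfl]
    · intro z _ hz
      rw [hMe, if_neg hz, mul_zero]
    · intro hh
      exact absurd (Finset.mem_univ _) hh
  have hmul' : ∀ (F : EE G (L × (N × W))) (x : G)
      (k : L) (b : N) (y : W),
      mph M hM F (x, (k, (b, y))) = ∑ a : N, F (x, (k, (a, y))) * c x⁻¹ y a b := by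
    intro F x k b y
    rw [mph_apply, Fintype.sum_prod_type]
    refine Finset.sum_congr rfl fun a _ => ?_
    rw [Finset.sum_eq_single y]
    · rw [hMe, if_pos rfl]
    · intro z _ hz
      rw [hMe, if_neg hz, mul_zero]
    · intro hh
      exact absurd (Finset.mem_univ _) hh
  have hDa' : ∀ (F : EE G (K × (N × W))) (x : G) (j : L) (a : N) (y : W),
      D F (x, (j, (a, y))) = ∑ k : K, ∑ y' : W, ∑ t ∈ T,
        win W W A (k, y') (j, y) t * F (t * x, (k, (a, y'))) := by
    intro F x j a y
    rw [hDa, Fintype.sum_prod_type]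
    refine Finset.sum_congr rfl fun k _ => ?_
    rw [Fintype.sum_prod_type, Finset.sum_eq_single a]
    · refine Finset.sum_congr rfl fun y' _ => Finset.sum_congr rfl fun t _ => ?_
      rw [hD1, if_pos rfl]
    · intro b _ hb
      apply Finset.sum_eq_zero
      intro y' _
      apply Finset.sum_eq_zero
      intro t _
      rw [hD1, if_neg hb, zero_mul]
    · intro hh
      exact absurd (Finset.mem_univ _) hh
  have key : ∀ F : EE G (K × (N × W)), E (mph M hM F) = mph M hM (D F) := by
    intro F
    ext ⟨x, j, b, y⟩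
    rw [hmul', hEa, Fintype.sum_prod_type]
    have hL : ∀ k : K, ∑ p : N × W, ∑ t ∈ T, C1 (k, p) (j, (b, y)) t
          * mph M hM F (t * x, (k, p))
        = ∑ y' : W, ∑ t ∈ T, ∑ c' : N, win W W A (k, y') (j, y) t * F (t * x, (k, (c', y')))
          * c x⁻¹ y c' b := by
      intro k
      rw [Fintype.sum_prod_type, Finset.sum_comm]
      refine Finset.sum_congr rfl fun y' _ => ?_
      rw [Finset.sum_comm]
      refine Finset.sum_congr rfl fun t _ => ?_
      have e1 : ∀ a : N, C1 (k, (a, y')) (j, (b, y)) t * mph M hM F (t * x, (k, (a, y')))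
          = ∑ c' : N, win W W A (k, y') (j, y) t * F (t * x, (k, (c', y')))
            * (c (t * x)⁻¹ y' c' a * c t y a b) := by
        intro a
        rw [hC1, hmul, Finset.mul_sum]
        exact Finset.sum_congr rfl fun c' _ => by ring
      simp only [e1]
      rw [Finset.sum_comm]
      refine Finset.sum_congr rfl fun c' _ => ?_
      rw [← Finset.mul_sum, ← Matrix.mul_apply]
      by_cases hh : t • (y : Ω) = (y' : Ω)
      · rw [← hh, cocycle_mul ρ s hs c h, mul_inv_rev, inv_mul_cancel_right]
      · rw [hwin, if_neg hh, zero_mul, zero_mul, zero_mul]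
    have hR : ∑ a : N, D F (x, (j, (a, y))) * c x⁻¹ y a b
        = ∑ k : K, ∑ y' : W, ∑ t ∈ T, ∑ c' : N, win W W A (k, y') (j, y) t
          * F (t * x, (k, (c', y'))) * c x⁻¹ y c' b := by
      simp only [hDa', Finset.sum_mul]
      rw [Finset.sum_comm]
      refine Finset.sum_congr rfl fun k _ => ?_
      rw [Finset.sum_comm]
      refine Finset.sum_congr rfl fun y' _ => ?_
      rw [Finset.sum_comm]
    rw [hR]
    exact Finset.sum_congr rfl fun k _ => hL k
  have h4 : kerDimM C1 = kerDimM D1 := by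
    rw [hEk, hDk]
    refine vd_mph (K := K) (N := N × W) M hM hM1 D E ?_
    intro F
    rw [key]
    constructor
    · intro h5
      have h0 : mph (K := L) M hM 0 = 0 := by
        ext ⟨x, k, a⟩
        rw [mph_apply]
        exact Finset.sum_eq_zero fun b _ => zero_mul _
      exact (isometry_mph (K := L) M hM).injective (h5.trans h0.symm)
    · intro h5
      rw [h5]
      ext ⟨x, k, a⟩
      rw [mph_apply]
      exact Finset.sum_eq_zero fun b _ => zero_mul _
  rw [← h1, h2, h4, h3]

/-- **Representations that are unitary along an amenable action.** -/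
theorem kerDimM_amenable (hF : ∀ (S : Finset G) (ε : ℝ), 0 < ε → ∃ W : Finset Ω, W.Nonempty ∧
      ∀ t ∈ S, ((W.filter fun y => t • y ∉ W).card : ℝ) ≤ ε * W.card)
    (A : K → L → (G →₀ ℂ)) (B : K × N → L × N → (G →₀ ℂ))
    (ρ : G →* Matrix N N ℂ) (hB : ∀ i a j b g, B (i, a) (j, b) g = A i j g * ρ g a b)
    (s : Ω → Matrix N N ℂ) (hs : ∀ y, IsUnit (s y)) (c : G → Ω → Matrix N N ℂ)
    (hc : ∀ g y, c g y * star (c g y) = 1) (h : ∀ g y, ρ g * s y = s (g • y) * c g y) :
    kerDimM B = Fintype.card N * kerDimM A := by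
  classical
  obtain ⟨T, hT⟩ := exists_supp A
  have hTB : ∀ p q, (B p q).support ⊆ T := by
    rintro ⟨i, a⟩ ⟨j, b⟩ g hg
    apply hT i j
    rw [Finsupp.mem_support_iff] at hg ⊢
    intro h0
    exact hg (by rw [hB, h0, zero_mul])
  set Cst : ℝ := 2 * (Fintype.card L * Fintype.card N * T.card) + 1 with hCst
  have hCpos : 0 < Cst := by positivity
  have key : ∀ ε : ℝ, 0 < ε → |kerDimM B - Fintype.card N * kerDimM A| ≤ ε * Cst := by
    intro ε hε
    obtain ⟨W, hWne, hW⟩ := hF (T ∪ T.image (fun t => t⁻¹)) ε hε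
    have hb : ∀ t ∈ T, ((W.filter fun y => t • y ∉ W).card : ℝ) ≤ ε * W.card :=
      fun t ht => hW t (Finset.mem_union_left _ ht)
    have hb' : ∀ t ∈ T, ((W.filter fun y => t⁻¹ • y ∉ W).card : ℝ) ≤ ε * W.card :=
      fun t ht => hW t⁻¹ (Finset.mem_union_right _ (Finset.mem_image_of_mem _ ht))
    have h1 := win_sq W A T hT (ε * W.card) hb hb'
    have h2 := win_sq W B T hTB (ε * W.card) hb hb'
    rw [win_cocycle W A B ρ hB s hs c hc h] at h2
    have hWpos : (0 : ℝ) < W.card := by exact_mod_cast Finset.card_pos.2 hWne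
    rw [abs_le] at h1 h2
    rw [Fintype.card_prod] at h2
    push_cast at h2
    have hN : (0 : ℝ) ≤ (Fintype.card N : ℝ) := Nat.cast_nonneg _
    have h3 := mul_le_mul_of_nonneg_left h1.1 hN
    have h4 := mul_le_mul_of_nonneg_left h1.2 hN
    rw [abs_le]
    constructor
    · have h5 : (W.card : ℝ) * (-(ε * Cst)) ≤ W.card * (kerDimM B - Fintype.card N * kerDimM A) := by
        have h6 : 0 ≤ (W.card : ℝ) * ε := by positivity
        nlinarith [h2.1, h2.2, h3, h4, h6]
      exact le_of_mul_le_mul_left h5 hWpos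
    · have h5 : (W.card : ℝ) * (kerDimM B - Fintype.card N * kerDimM A) ≤ W.card * (ε * Cst) := by
        have h6 : 0 ≤ (W.card : ℝ) * ε := by positivity
        nlinarith [h2.1, h2.2, h3, h4, h6]
      exact le_of_mul_le_mul_left h5 hWpos
  have h0 : |kerDimM B - Fintype.card N * kerDimM A| ≤ 0 := by
    apply le_of_forall_pos_le_add
    intro δ hδ
    have := key (δ / Cst) (by positivity)
    rw [div_mul_cancel₀ _ hCpos.ne'] at this
    linarith
  have h1 := abs_nonpos_iff.1 h0
  linarith

end

end Pool.Agent.X190.AT
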