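import Pool.Agent.Helper529.HJ.FolB

set_option autoImplicit false

/-! Følner sets for virtually solvable groups. -/

namespace Pool.Agent.X190.AT

open HJI.Fol

theorem fol_solv {G : Type} [Group G] (k : ℕ) (hk : derivedSeries G k = ⊥) : Fol G := by
  classical
  have hc : ∀ i, ∀ x ∈ derivedSeries G i, ∀ y ∈ derivedSeries G i,
      x * y * x⁻¹ * y⁻¹ ∈ derivedSeries G (i + 1) := by
    intro i x hx y hy
    rw [derivedSeries_succ]
    exact Subgroup.commutator_mem_commutator hx hy
  have key : ∀ j, j ≤ k → Fol (derivedSeries G (k - j)) := by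
    intro j
    induction j with
    | zero =>
      intro _
      rw [Nat.sub_zero, hk]
      exact fol_of_finite
    | succ j ih =>
      intro hj
      obtain ⟨i, hi⟩ : ∃ i, k - (j + 1) = i := ⟨_, rfl⟩
      have hi2 : k - j = i + 1 := by omega
      have ih2 := ih (by omega)
      rw [hi2] at ih2
      rw [hi]
      set K := (derivedSeries G (i + 1)).subgroupOf (derivedSeries G i) with hK
      have hn : K.Normal := by
        constructor
        intro n hn g
        have h1 : (n : G) * g * (n : G)⁻¹ * (g : G)⁻¹ ∈ derivedSeries G (i + 1) :=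
          hc i n n.2 g g.2
        have h2 : ((g * n * g⁻¹ : derivedSeries G i) : G)
            = ((n : G) * g * (n : G)⁻¹ * (g : G)⁻¹)⁻¹ * n := by
          push_cast
          group
        rw [hK, Subgroup.mem_subgroupOf, h2]
        exact (derivedSeries G (i + 1)).mul_mem ((derivedSeries G (i + 1)).inv_mem h1) hn
      have h1 : Fol (derivedSeries G i ⧸ K) := by
        apply fol_comm
        intro a b
        obtain ⟨a, rfl⟩ := QuotientGroup.mk_surjective a
        obtain ⟨b, rfl⟩ := QuotientGroup.mk_surjective b
        rw [← QuotientGroup.mk_mul, ← QuotientGroup.mk_mul, QuotientGroup.eq]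
        rw [hK, Subgroup.mem_subgroupOf]
        have h2 := hc i (b : G)⁻¹ (derivedSeries G i |>.inv_mem b.2) (a : G)⁻¹
          (derivedSeries G i |>.inv_mem a.2)
        have h3 : (((a * b)⁻¹ * (b * a) : derivedSeries G i) : G) =
            (b : G)⁻¹ * (a : G)⁻¹ * ((b : G)⁻¹)⁻¹ * ((a : G)⁻¹)⁻¹ := by
          push_cast
          group
        rw [h3]
        exact h2
      apply fol_ext (QuotientGroup.mk' K) _ h1
      let f : (QuotientGroup.mk' K).ker →* derivedSeries G (i + 1) :=
        { toFun := fun x => ⟨x.1.1, (QuotientGroup.eq_one_iff (N := K) x.1).1 x.2⟩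
          map_one' := rfl
          map_mul' := fun x y => rfl }
      apply fol_of_injective f _ ih2
      intro x y hxy
      have h3 : ((f x : derivedSeries G (i + 1)) : G) = ((f y : derivedSeries G (i + 1)) : G) :=
        congrArg Subtype.val hxy
      exact Subtype.ext (Subtype.ext h3)
  have h1 := key k le_rfl
  rw [Nat.sub_self, derivedSeries_zero] at h1
  exact fol_of_injective (Subgroup.topEquiv (G := G)).symm.toMonoidHom
    (Subgroup.topEquiv (G := G)).symm.injective h1

theorem fol_virt {G : Type} [Group G] (F : Subgroup G) [F.Normal] [F.FiniteIndex] (k : ℕ) :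
    Fol (G ⧸ ((derivedSeries F k).map F.subtype)) := by
  classical
  set H := (derivedSeries F k).map F.subtype with hH
  set q := QuotientGroup.mk' H with hq
  have hqs : Function.Surjective q := QuotientGroup.mk'_surjective H
  set E := F.map q with hE
  have hEn : E.Normal := Subgroup.Normal.map inferInstance q hqs
  have hfin : Finite ((G ⧸ H) ⧸ E) := by
    have h1 : E.index ≠ 0 := by
      intro h0
      have h2 : E.index ∣ F.index := Subgroup.index_map_dvd F hqs
      rw [h0, zero_dvd_iff] at h2
      exact Subgroup.FiniteIndex.index_ne_zero h2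
    haveI : E.FiniteIndex := ⟨h1⟩
    exact Subgroup.finite_quotient_of_finiteIndex
  have h2 : Fol ((G ⧸ H) ⧸ E) := fol_of_finite
  refine fol_ext (QuotientGroup.mk' E) ?_ h2
  rw [QuotientGroup.ker_mk']
  apply fol_solv k
  let f : F →* E := q.subgroupMap F
  have hf : Function.Surjective f := q.subgroupMap_surjective F
  rw [← map_derivedSeries_eq hf, eq_bot_iff]
  rintro _ ⟨x, hx, rfl⟩
  rw [Subgroup.mem_bot]
  apply Subtype.ext
  change q x = 1
  rw [hq, QuotientGroup.mk'_apply, QuotientGroup.eq_one_iff]
  exact Subgroup.mem_map_of_mem F.subtype hx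

end Pool.Agent.X190.AT
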