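import Pool.Agent.X190.AT.Coc
import Pool.Agent.X190.AT.Fol
import Mathlib.Analysis.Matrix.Order

set_option autoImplicit false
set_option linter.unusedSectionVars false

open scoped MatrixOrder ComplexOrder

/-! Equivariant inner products along amenable actions. -/

namespace Pool.Agent.X190.AT

open Pool.Agent.W649.ZL Pool.Agent.X190.TW HJI.Fol

universe u v w z y

theorem exists_factor {N : Type*} [Fintype N] [DecidableEq N] (P : Matrix N N ℂ) (hP : P.PosDef) :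
    ∃ s : Matrix N N ℂ, IsUnit s ∧ s * star s = P := by
  obtain ⟨B, hB⟩ := CStarAlgebra.nonneg_iff_eq_star_mul_self.mp hP.posSemidef.nonneg
  refine ⟨star B, ?_, ?_⟩
  · obtain ⟨u, hu⟩ := hP.isUnit
    have h1 : star B * (B * (u⁻¹ : (Matrix N N ℂ)ˣ)) = 1 := by
      rw [← mul_assoc, ← hB, ← hu, u.mul_inv]
    exact IsUnit.of_mul_eq_one _ h1
  · rw [star_star, hB]

/-- Følner sets for an action -/
def Am (G : Type u) (Ω : Type z) [Group G] [MulAction G Ω] : Prop :=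
  ∀ (S : Finset G) (ε : ℝ), 0 < ε → ∃ W : Finset Ω, W.Nonempty ∧
    ∀ t ∈ S, (({y | y ∈ W ∧ t • y ∉ W} : Set Ω).ncard : ℝ) ≤ ε * W.card

section
variable {G : Type u} {K : Type v} {L : Type w} {N : Type y} [Group G] [Fintype K] [Fintype L]
  [Fintype N] [DecidableEq K] [DecidableEq L] [DecidableEq N]

theorem kerDimM_field {Ω : Type z} [MulAction G Ω] (hF : Am G Ω)
    (A : K → L → (G →₀ ℂ)) (B : K × N → L × N → (G →₀ ℂ))
    (ρ : G →* Matrix N N ℂ) (hB : ∀ i a j b g, B (i, a) (j, b) g = A i j g * ρ g a b)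
    (s : Ω → Matrix N N ℂ) (hs : ∀ y, IsUnit (s y))
    (h : ∀ g y, ρ g * (s y * star (s y)) * star (ρ g) = s (g • y) * star (s (g • y))) :
    kerDimM B = Fintype.card N * kerDimM A := by
  classical
  choose u hu using hs
  let c : G → Ω → Matrix N N ℂ := fun g y => ((u (g • y))⁻¹ : (Matrix N N ℂ)ˣ) * ρ g * s y
  refine kerDimM_amenable ?_ A B ρ hB s (fun y => ⟨u y, hu y⟩) c ?_ ?_
  · intro S ε hε
    obtain ⟨W, hW, h1⟩ := hF S ε hε
    refine ⟨W, hW, fun t ht => ?_⟩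
    refine le_trans (le_of_eq ?_) (h1 t ht)
    have h2 : ({y | y ∈ W ∧ t • y ∉ W} : Set Ω) = ((W.filter fun y => t • y ∉ W : Finset Ω) : Set Ω) := by
      ext y
      simp
    rw [h2, Set.ncard_coe_finset]
  · intro g y
    have e1 : c g y * star (c g y)
        = ((u (g • y))⁻¹ : (Matrix N N ℂ)ˣ) * (ρ g * (s y * star (s y)) * star (ρ g))
          * star (((u (g • y))⁻¹ : (Matrix N N ℂ)ˣ) : Matrix N N ℂ) := by
      change ((u (g • y))⁻¹ : (Matrix N N ℂ)ˣ) * ρ g * s y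
        * star (((u (g • y))⁻¹ : (Matrix N N ℂ)ˣ) * ρ g * s y) = _
      rw [star_mul, star_mul]
      noncomm_ring
    rw [e1, h, ← hu (g • y)]
    have e2 : (((u (g • y))⁻¹ : (Matrix N N ℂ)ˣ) : Matrix N N ℂ) * (u (g • y) : Matrix N N ℂ) = 1 :=
      (u (g • y)).inv_mul
    have e3 : star (u (g • y) : Matrix N N ℂ) * star (((u (g • y))⁻¹ : (Matrix N N ℂ)ˣ) : Matrix N N ℂ)
        = 1 := by
      rw [← star_mul, e2, star_one]
    rw [← mul_assoc, e2, one_mul, e3]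
  · intro g y
    change ρ g * s y = s (g • y) * (((u (g • y))⁻¹ : (Matrix N N ℂ)ˣ) * ρ g * s y)
    rw [← hu (g • y), ← mul_assoc, ← mul_assoc, (u (g • y)).mul_inv, one_mul]

theorem isUnit_rho (ρ : G →* Matrix N N ℂ) (g : G) : IsUnit (ρ g) := by
  apply IsUnit.of_mul_eq_one (ρ g⁻¹)
  rw [← map_mul, mul_inv_cancel, map_one]

/-- the case of a co-amenable subgroup -/
theorem kerDimM_sub (H : Subgroup G) (hF : Am G (G ⧸ H))
    (A : K → L → (G →₀ ℂ)) (B : K × N → L × N → (G →₀ ℂ))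
    (ρ : G →* Matrix N N ℂ) (hB : ∀ i a j b g, B (i, a) (j, b) g = A i j g * ρ g a b)
    (P : Matrix N N ℂ) (hP : P.PosDef) (h : ∀ g ∈ H, ρ g * P * star (ρ g) = P) :
    kerDimM B = Fintype.card N * kerDimM A := by
  classical
  obtain ⟨s, hs, hsP⟩ := exists_factor P hP
  refine kerDimM_field hF A B ρ hB (fun y : G ⧸ H => ρ y.out * s)
    (fun y => (isUnit_rho ρ _).mul hs) ?_
  intro g y
  have e1 : ∀ k : G, ρ k * s * star (ρ k * s) = ρ k * P * star (ρ k) := by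
    intro k
    rw [star_mul, ← hsP]
    noncomm_ring
  rw [e1, e1]
  have h1 : (g • y : G ⧸ H) = ((g * y.out : G) : G ⧸ H) := by
    conv_lhs => rw [← QuotientGroup.out_eq' y]
    rfl
  have h2 : ((g • y : G ⧸ H).out)⁻¹ * (g * y.out) ∈ H := by
    rw [← QuotientGroup.eq, QuotientGroup.out_eq', h1]
  have h3 : g * y.out = (g • y : G ⧸ H).out * (((g • y : G ⧸ H).out)⁻¹ * (g * y.out)) := by group
  have h4 : ρ g * (ρ y.out * P * star (ρ y.out)) * star (ρ g)
      = ρ (g * y.out) * P * star (ρ (g * y.out)) := by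
    rw [map_mul, star_mul]
    noncomm_ring
  rw [h4, h3, map_mul, star_mul]
  have h5 := h _ h2
  calc ρ (g • y : G ⧸ H).out * ρ (((g • y : G ⧸ H).out)⁻¹ * (g * y.out)) * P
        * (star (ρ (((g • y : G ⧸ H).out)⁻¹ * (g * y.out))) * star (ρ (g • y : G ⧸ H).out))
      = ρ (g • y : G ⧸ H).out * (ρ (((g • y : G ⧸ H).out)⁻¹ * (g * y.out)) * P
        * star (ρ (((g • y : G ⧸ H).out)⁻¹ * (g * y.out)))) * star (ρ (g • y : G ⧸ H).out) := by
        noncomm_ring
    _ = _ := by rw [h5]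

/-- block triangular matrices -/
theorem kerDimM_tri_le (A : K → L → (G →₀ ℂ)) (B C : K × N → L × N → (G →₀ ℂ))
    (ρ ρ' : G → Matrix N N ℂ) (lev : N → ℝ) (hlev : ∀ g a b, lev b < lev a → ρ' g a b = 0)
    (hρ : ∀ g a b, lev a ≠ lev b → ρ g a b = 0) (hρ' : ∀ g a b, lev a = lev b → ρ' g a b = ρ g a b)
    (hB : ∀ i a j b g, B (i, a) (j, b) g = A i j g * ρ' g a b)
    (hC : ∀ i a j b g, C (i, a) (j, b) g = A i j g * ρ g a b) :
    kerDimM B ≤ kerDimM C := by
  classical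
  refine kerDimM_face B C (fun _ => 0) (fun _ _ => by ring) (fun p => - lev p.2)
    (fun q => lev q.2) ?_ ?_ ?_
  · rintro ⟨i, a⟩ ⟨j, b⟩ g hg
    by_contra hcon
    push Not at hcon
    apply hg
    rw [hB, hlev g a b (by simp only at hcon; linarith), mul_zero]
  · rintro ⟨i, a⟩ ⟨j, b⟩ g hg
    simp only at hg
    have hab : lev a = lev b := by linarith
    rw [hB, hC, hρ' g a b hab]
  · rintro ⟨i, a⟩ ⟨j, b⟩ g hg
    rw [hC, hρ g a b (fun h => hg (by simp only; linarith)), mul_zero]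

end

theorem am_of_fol {G : Type} [Group G] (H : Subgroup G) [H.Normal] (hF : Fol (G ⧸ H)) :
    Am G (G ⧸ H) := by
  classical
  intro S ε hε
  obtain ⟨T, hT, h1⟩ := hF (S.image (QuotientGroup.mk' H)) ε hε
  refine ⟨T, hT, ?_⟩
  intro t ht
  refine le_trans (le_of_eq ?_) (h1 _ (Finset.mem_image_of_mem _ ht))
  rw [← Set.ncard_coe_finset]
  congr 2
  ext y
  rw [Finset.coe_filter]
  have h3 : t • y = QuotientGroup.mk' H t * y := by
    obtain ⟨y, rfl⟩ := QuotientGroup.mk_surjective y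
    rfl
  change (y ∈ T ∧ t • y ∉ T) ↔ (y ∈ T ∧ QuotientGroup.mk' H t * y ∉ T)
  rw [h3]

theorem am_virt {G : Type} [Group G] (F : Subgroup G) [F.Normal] [F.FiniteIndex] (k : ℕ) :
    Am G (G ⧸ ((derivedSeries F k).map F.subtype)) :=
  am_of_fol _ (fol_virt F k)

end Pool.Agent.X190.AT
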