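import Pool.Agent.X190.AT.Main

set_option autoImplicit false
set_option linter.unusedSectionVars false

open scoped InnerProductSpace InnerProduct ENNReal Topology
open Filter

/-! Permanence under co-amenable overgroups. -/

namespace Pool.Agent.X190.AT

open Pool.Agent.W649.ZL Pool.Agent.X190.TW

universe u v w z y

section
variable {G : Type u} {K : Type v} {L : Type w} {N : Type y} [Group G] [Fintype K] [Fintype L]
  [Fintype N] [DecidableEq K] [DecidableEq L] [DecidableEq N]

theorem one_sub_le' {E1 E2 : Type*} [NormedAddCommGroup E1] [NormedAddCommGroup E2]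
    (P : Set E1) (Q : Set E2) (hne : P.Nonempty) (d1 : E1) (d2 : E2) (Φ : E1 → E2)
    (hΦ : ∀ f g, ‖Φ f - Φ g‖ ≤ ‖f - g‖) (hd : Φ d1 = d2) (hm : ∀ f ∈ P, Φ f ∈ Q) :
    1 - Metric.infDist d1 P ^ 2 ≤ 1 - Metric.infDist d2 Q ^ 2 := by
  have h1 : Metric.infDist d2 Q ≤ Metric.infDist d1 P := by
    apply (Metric.le_infDist hne).2
    intro f hf
    refine (Metric.infDist_le_dist_of_mem (hm f hf)).trans ?_
    rw [← hd, dist_eq_norm, dist_eq_norm]
    exact hΦ _ _
  have h2 := pow_le_pow_left₀ Metric.infDist_nonneg h1 2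
  linarith

/-- the base point does not matter -/
theorem infDist_base {I : Type*} (P : Submodule ℂ (EE G I)) (hP : W649.ZL.Inv P) (x : G) (i : I) :
    Metric.infDist (dl (x, i)) (P : Set (EE G I)) = Metric.infDist (dl ((1 : G), i)) (P : Set (EE G I)) := by
  have hne : (P : Set (EE G I)).Nonempty := ⟨0, P.zero_mem⟩
  have key : ∀ (x z : G), Metric.infDist (dl (z, i)) (P : Set (EE G I))
      ≤ Metric.infDist (dl (x, i)) (P : Set (EE G I)) := by
    intro x z
    apply (Metric.le_infDist hne).2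
    intro f hf
    refine (Metric.infDist_le_dist_of_mem (hP (z⁻¹ * x) f hf)).trans (le_of_eq ?_)
    have h1 : (dl (z, i) : EE G I) = tr (z⁻¹ * x) (dl (x, i)) := by
      rw [tr_dl]
      congr 2
      group
    rw [h1, dist_eq_norm, dist_eq_norm]
    have h2 : tr (z⁻¹ * x) (dl (x, i)) - tr (z⁻¹ * x) f = tr (z⁻¹ * x) (dl (x, i) - f) := by
      ext p
      rfl
    rw [h2, norm_tr]
  exact le_antisymm (key _ _) (key _ _)

variable (H : Subgroup G)

theorem smul_eq_out (t : G) (y : G ⧸ H) : t • y = ((t * y.out : G) : G ⧸ H) := by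
  conv_lhs => rw [← QuotientGroup.out_eq' y]
  rfl

/-- the element of the subgroup -/
noncomputable def hel (t : G) (y : G ⧸ H) : H :=
  ⟨((t • y : G ⧸ H).out)⁻¹ * (t * y.out), by
    rw [← QuotientGroup.eq, QuotientGroup.out_eq', smul_eq_out]⟩

theorem hel_mul (t : G) (y : G ⧸ H) :
    (t • y : G ⧸ H).out * (hel H t y : G) = t * y.out := by
  unfold hel
  simp only
  group

theorem smul_of (y y' : G ⧸ H) (h : H) : (y'.out * h * y.out⁻¹) • y = y' := by
  rw [smul_eq_out, inv_mul_cancel_right, QuotientGroup.mk_mul_of_mem _ h.2,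
    QuotientGroup.out_eq']

/-- the window as a matrix over the group algebra of the subgroup -/
noncomputable def sub (W : Finset (G ⧸ H)) (A : K → L → (G →₀ ℂ)) :
    K × W → L × W → (H →₀ ℂ) := fun p q =>
  Finsupp.comapDomain (fun h : H => (p.2 : G ⧸ H).out * (h : G) * (q.2 : G ⧸ H).out⁻¹)
    (A p.1 q.1) (fun a _ b _ hab => by
      apply Subtype.ext
      simpa using hab)

theorem sub_apply (W : Finset (G ⧸ H)) (A : K → L → (G →₀ ℂ)) (k : K) (y' : W) (j : L) (y : W)
    (h : H) : sub H W A (k, y') (j, y) h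
      = A k j ((y' : G ⧸ H).out * (h : G) * (y : G ⧸ H).out⁻¹) := rfl

/-- reindexing the sum -/
theorem sum_sub (W : Finset (G ⧸ H)) [DecidableEq (G ⧸ H)] (A : K → L → (G →₀ ℂ)) (T : Finset G)
    (hT : ∀ i j, (A i j).support ⊆ T) (T' : Finset H)
    (hT' : ∀ p q, (sub H W A p q).support ⊆ T') (k : K) (j : L) (y : W) (f : H → W → ℂ) :
    ∑ y' : W, ∑ h ∈ T', sub H W A (k, y') (j, y) h * f h y'
      = ∑ t ∈ T, A k j t * (if ht : t • (y : G ⧸ H) ∈ W then f (hel H t y) ⟨_, ht⟩ else 0) := by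
  classical
  rw [← Finset.sum_product']
  have hmem : ∀ (y' : W) (h : H), sub H W A (k, y') (j, y) h ≠ 0 → h ∈ T' := by
    intro y' h hh
    exact hT' _ _ (Finsupp.mem_support_iff.2 hh)
  refine Finset.sum_bij_ne_zero
    (fun p _ _ => (p.1 : G ⧸ H).out * (p.2 : G) * (y : G ⧸ H).out⁻¹) ?_ ?_ ?_ ?_
  · rintro ⟨y', h⟩ _ hne
    apply hT k j
    rw [Finsupp.mem_support_iff]
    intro h0
    apply hne
    rw [sub_apply, h0, zero_mul]
  · rintro ⟨y1, h1⟩ _ _ ⟨y2, h2⟩ _ _ heq
    simp only at heq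
    have e1 : (y1 : G ⧸ H) = y2 := by
      rw [← smul_of H y y1 h1, ← smul_of H y y2 h2, heq]
    have e2 : y1 = y2 := Subtype.ext e1
    subst e2
    have e3 : (h1 : G) = h2 := by
      have := mul_right_cancel heq
      exact mul_left_cancel this
    rw [Subtype.ext e3]
  · intro t ht hne
    have ht1 : t • (y : G ⧸ H) ∈ W := by
      by_contra hcon
      apply hne
      rw [dif_neg hcon, mul_zero]
    have e1 : (t • (y : G ⧸ H)).out * ((hel H t y : H) : G) * (y : G ⧸ H).out⁻¹ = t := by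
      rw [hel_mul, mul_inv_cancel_right]
    have e2 : sub H W A (k, ⟨_, ht1⟩) (j, y) (hel H t y) = A k j t := by
      rw [sub_apply, e1]
    have e3 : A k j t ≠ 0 := by
      intro h0
      apply hne
      rw [h0, zero_mul]
    refine ⟨(⟨_, ht1⟩, hel H t y), ?_, ?_, e1⟩
    · rw [Finset.mem_product]
      exact ⟨Finset.mem_univ _, hmem _ _ (by rw [e2]; exact e3)⟩
    · simp only
      rw [e2]
      rw [dif_pos ht1] at hne
      exact hne
  · rintro ⟨y', h⟩ _ _
    simp only
    have e1 : ((y' : G ⧸ H).out * (h : G) * (y : G ⧸ H).out⁻¹) • (y : G ⧸ H) = y' := smul_of H y y' h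
    have e2 : ((y' : G ⧸ H).out * (h : G) * (y : G ⧸ H).out⁻¹) • (y : G ⧸ H) ∈ W := by
      rw [e1]
      exact y'.2
    rw [dif_pos e2, sub_apply]
    have e3 : (⟨_, e2⟩ : W) = y' := Subtype.ext e1
    have e4 : hel H ((y' : G ⧸ H).out * (h : G) * (y : G ⧸ H).out⁻¹) y = h := by
      apply Subtype.ext
      have := hel_mul H ((y' : G ⧸ H).out * (h : G) * (y : G ⧸ H).out⁻¹) (y : G ⧸ H)
      rw [inv_mul_cancel_right] at this
      rw [e1] at this
      exact mul_left_cancel this
    rw [e3, e4]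

/-- the dimension of a window over the subgroup -/
theorem kerDimM_sub_eq (W : Finset (G ⧸ H)) [DecidableEq (G ⧸ H)] (A : K → L → (G →₀ ℂ)) :
    kerDimM (win W W A) = kerDimM (sub H W A) := by
  classical
  obtain ⟨T, hT⟩ := exists_supp A
  obtain ⟨T', hT'⟩ := exists_supp (sub H W A)
  obtain ⟨R, hR, hRk, hRa⟩ := op_win W W A T hT
  obtain ⟨S, hS, hSk, hSa⟩ := exists_opT (sub H W A) T' hT'
  have hSa' : ∀ (F : EE H (K × W)) (v : H) (j : L) (y : W), S F (v, (j, y))
      = ∑ k : K, ∑ t ∈ T, A k j t * (if ht : t • (y : G ⧸ H) ∈ W then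
          F (hel H t y * v, (k, ⟨_, ht⟩)) else 0) := by
    intro F v j y
    rw [hSa, Fintype.sum_prod_type]
    refine Finset.sum_congr rfl fun k _ => ?_
    exact sum_sub H W A T hT T' hT' k j y (fun h y' => F (h * v, (k, y')))
  rw [hRk, hSk, vd_eq_infDist _ (ContinuousLinearMap.isClosed_ker R),
    vd_eq_infDist _ (ContinuousLinearMap.isClosed_ker S)]
  refine Finset.sum_congr rfl fun p _ => ?_
  obtain ⟨k, y⟩ := p
  rw [← infDist_base _ (inv_ker R hR) (y : G ⧸ H).out (k, y)]
  apply le_antisymm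
  · let ι : ↥(Set.univ : Set (H × (K × W))) → G × (K × W) :=
      fun z => ((z.1.2.2 : G ⧸ H).out * (z.1.1 : G), z.1.2)
    have hι : Function.Injective ι := by
      rintro ⟨⟨x, k1, y1⟩, _⟩ ⟨⟨x', k2, y2⟩, _⟩ hh
      obtain ⟨h1, h2⟩ := Prod.mk.inj hh
      simp only at h1 h2
      obtain ⟨h3, h4⟩ := Prod.mk.inj h2
      subst h3 h4
      have h5 : x = x' := Subtype.ext (mul_left_cancel h1)
      subst h5
      rfl
    have hap : ∀ (F : EE G (K × W)) (v : H) (k : K) (y : W),
        pull _ ι hι F (v, (k, y)) = F ((y : G ⧸ H).out * (v : G), (k, y)) := by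
      intro F v k y
      rw [pull_apply, pullFun_mem _ _ _ _ (Set.mem_univ _)]
    refine one_sub_le' _ _ ⟨0, Submodule.zero_mem _⟩ _ _ (pull _ ι hι) ?_ ?_ ?_
    · intro F F'
      rw [pull_sub]
      exact norm_pull_le _ _ _ _
    · ext ⟨v, k', y'⟩
      rw [hap]
      by_cases h : (v, (k', y')) = ((1 : H), (k, y))
      · obtain ⟨rfl, h2⟩ := Prod.mk.inj h
        obtain ⟨rfl, rfl⟩ := Prod.mk.inj h2
        rw [OneMemClass.coe_one, mul_one, dl_apply_self, dl_apply_self]
      · rw [dl_apply_ne _ _ h, dl_apply_ne]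
        intro h1
        obtain ⟨h2, h3⟩ := Prod.mk.inj h1
        apply h
        rw [h3]
        obtain ⟨_, h5⟩ := Prod.mk.inj h3
        subst h5
        rw [mul_eq_left] at h2
        have h7 : v = 1 := Subtype.ext h2
        rw [h7]
    · intro F hF
      have hF0 : R F = 0 := hF
      change S (pull _ ι hι F) = 0
      ext ⟨v, j, y1⟩
      have h1 : R F ((y1 : G ⧸ H).out * (v : G), (j, y1)) = 0 := by
        rw [hF0]
        rfl
      rw [hRa] at h1
      rw [hSa']
      refine Eq.trans ?_ h1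
      refine Finset.sum_congr rfl fun k _ => Finset.sum_congr rfl fun t _ => ?_
      congr 1
      by_cases ht : t • (y1 : G ⧸ H) ∈ W
      · rw [dif_pos ht, xt_mem _ _ _ _ _ ht, hap]
        rw [Subgroup.coe_mul, ← mul_assoc, hel_mul, mul_assoc]
      · rw [dif_neg ht, xt_notMem _ _ _ _ _ ht]
  · let D : Set (G × (K × W)) := {z | (z.2.2 : G ⧸ H).out⁻¹ * z.1 ∈ H}
    let ι : D → H × (K × W) := fun z => (⟨(z.1.2.2 : G ⧸ H).out⁻¹ * z.1.1, z.2⟩, z.1.2)
    have hι : Function.Injective ι := by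
      rintro ⟨⟨x, k1, y1⟩, _⟩ ⟨⟨x', k2, y2⟩, _⟩ hh
      obtain ⟨h1, h2⟩ := Prod.mk.inj hh
      simp only at h2
      obtain ⟨h3, h4⟩ := Prod.mk.inj h2
      subst h3 h4
      have h5 : x = x' := mul_left_cancel (congrArg Subtype.val h1)
      subst h5
      rfl
    have hap : ∀ (F : EE H (K × W)) (x : G) (k : K) (y : W)
        (h : (y : G ⧸ H).out⁻¹ * x ∈ H),
        pull D ι hι F (x, (k, y)) = F (⟨_, h⟩, (k, y)) := by
      intro F x k y h
      rw [pull_apply, pullFun_mem D ι F (x, (k, y)) h]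
    have hap0 : ∀ (F : EE H (K × W)) (x : G) (k : K) (y : W)
        (h : ¬ (y : G ⧸ H).out⁻¹ * x ∈ H),
        pull D ι hι F (x, (k, y)) = 0 := by
      intro F x k y h
      rw [pull_apply, pullFun_notMem D ι F (x, (k, y)) h]
    refine one_sub_le' _ _ ⟨0, Submodule.zero_mem _⟩ _ _ (pull D ι hι) ?_ ?_ ?_
    · intro F F'
      rw [pull_sub]
      exact norm_pull_le _ _ _ _
    · ext ⟨x, k', y'⟩
      by_cases hx : (y' : G ⧸ H).out⁻¹ * x ∈ H
      · rw [hap _ _ _ _ hx]
        by_cases h : (x, (k', y')) = ((y : G ⧸ H).out, (k, y))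
        · obtain ⟨rfl, h2⟩ := Prod.mk.inj h
          obtain ⟨rfl, rfl⟩ := Prod.mk.inj h2
          rw [dl_apply_self]
          have h3 : (⟨(y' : G ⧸ H).out⁻¹ * (y' : G ⧸ H).out, hx⟩ : H) = 1 :=
            Subtype.ext (inv_mul_cancel _)
          rw [h3, dl_apply_self]
        · rw [dl_apply_ne _ _ h, dl_apply_ne]
          intro h1
          obtain ⟨h2, h3⟩ := Prod.mk.inj h1
          apply h
          rw [h3]
          obtain ⟨_, h5⟩ := Prod.mk.inj h3
          subst h5
          have h6 : (y' : G ⧸ H).out⁻¹ * x = 1 := congrArg Subtype.val h2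
          rw [inv_mul_eq_one] at h6
          rw [← h6]
      · rw [hap0 _ _ _ _ hx, dl_apply_ne]
        intro h1
        obtain ⟨h2, h3⟩ := Prod.mk.inj h1
        obtain ⟨_, h5⟩ := Prod.mk.inj h3
        apply hx
        rw [h2, h5, inv_mul_cancel]
        exact H.one_mem
    · intro F hF
      have hF0 : S F = 0 := hF
      change R (pull D ι hι F) = 0
      ext ⟨x, j, y1⟩
      rw [hRa]
      change _ = (0 : ℂ)
      have hrel : ∀ t : G, (t • (y1 : G ⧸ H)).out⁻¹ * (t * x)
          = (hel H t y1 : G) * ((y1 : G ⧸ H).out⁻¹ * x) := by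
        intro t
        have h1 := hel_mul H t (y1 : G ⧸ H)
        have h2 : (hel H t y1 : G) = (t • (y1 : G ⧸ H)).out⁻¹ * (t * (y1 : G ⧸ H).out) := by
          rw [← h1]
          group
        rw [h2]
        group
      by_cases hx : (y1 : G ⧸ H).out⁻¹ * x ∈ H
      · have h1 : S F (⟨_, hx⟩, (j, y1)) = 0 := by
          rw [hF0]
          rfl
        rw [hSa'] at h1
        rw [← h1]
        refine Finset.sum_congr rfl fun k _ => Finset.sum_congr rfl fun t _ => ?_
        congr 1
        by_cases ht : t • (y1 : G ⧸ H) ∈ W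
        · rw [dif_pos ht, xt_mem _ _ _ _ _ ht]
          have h2 : (t • (y1 : G ⧸ H)).out⁻¹ * (t * x) ∈ H := by
            rw [hrel]
            exact H.mul_mem (hel H t y1).2 hx
          rw [hap _ _ _ _ h2]
          have h3 : (⟨_, h2⟩ : H) = hel H t y1 * ⟨_, hx⟩ := Subtype.ext (hrel t)
          rw [h3]
        · rw [dif_neg ht, xt_notMem _ _ _ _ _ ht]
      · apply Finset.sum_eq_zero
        intro k _
        apply Finset.sum_eq_zero
        intro t _
        by_cases ht : t • (y1 : G ⧸ H) ∈ W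
        · rw [xt_mem _ _ _ _ _ ht, hap0, mul_zero]
          rw [hrel]
          intro h2
          apply hx
          have h3 := H.mul_mem (H.inv_mem (hel H t y1).2) h2
          rwa [inv_mul_cancel_left] at h3
        · rw [xt_notMem _ _ _ _ _ ht, mul_zero]

/-- the limit along Følner sets -/
theorem kerDimM_limitF {Ω : Type z} [MulAction G Ω] [DecidableEq Ω] (hF : Am G Ω)
    (A : K → L → (G →₀ ℂ)) (B : K × N → L × N → (G →₀ ℂ))
    (ρ : G →* Matrix N N ℂ) (hB : ∀ i a j b g, B (i, a) (j, b) g = A i j g * ρ g a b)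
    (h : ∀ W : Finset Ω, kerDimM (win W W B) = Fintype.card N * kerDimM (win W W A)) :
    kerDimM B = Fintype.card N * kerDimM A := by
  classical
  obtain ⟨T, hT⟩ := exists_supp A
  have hTB : ∀ p q, (B p q).support ⊆ T := by
    rintro ⟨i, a⟩ ⟨j, b⟩ g hg
    apply hT i j
    rw [Finsupp.mem_support_iff] at hg ⊢
    intro h0
    exact hg (by rw [hB, h0, zero_mul])
  set Cst : ℝ := 2 * (Fintype.card L * Fintype.card N * T.card) + 1 with hCst
  have hCpos : 0 < Cst := by positivity
  have key : ∀ ε : ℝ, 0 < ε → |kerDimM B - Fintype.card N * kerDimM A| ≤ ε * Cst := by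
    intro ε hε
    obtain ⟨W, hWne, hW'⟩ := hF (T ∪ T.image (fun t => t⁻¹)) ε hε
    have hW : ∀ t ∈ T ∪ T.image (fun t => t⁻¹),
        ((W.filter fun y => t • y ∉ W).card : ℝ) ≤ ε * W.card := by
      intro t ht
      refine le_trans (le_of_eq ?_) (hW' t ht)
      rw [← Set.ncard_coe_finset, Finset.coe_filter]
    have hb : ∀ t ∈ T, ((W.filter fun y => t • y ∉ W).card : ℝ) ≤ ε * W.card :=
      fun t ht => hW t (Finset.mem_union_left _ ht)
    have hb' : ∀ t ∈ T, ((W.filter fun y => t⁻¹ • y ∉ W).card : ℝ) ≤ ε * W.card :=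
      fun t ht => hW t⁻¹ (Finset.mem_union_right _ (Finset.mem_image_of_mem _ ht))
    have h1 := win_sq W A T hT (ε * W.card) hb hb'
    have h2 := win_sq W B T hTB (ε * W.card) hb hb'
    rw [h W] at h2
    have hWpos : (0 : ℝ) < W.card := by exact_mod_cast Finset.card_pos.2 hWne
    rw [abs_le] at h1 h2
    rw [Fintype.card_prod] at h2
    push_cast at h2
    have hN : (0 : ℝ) ≤ (Fintype.card N : ℝ) := Nat.cast_nonneg _
    have h3 := mul_le_mul_of_nonneg_left h1.1 hN
    have h4 := mul_le_mul_of_nonneg_left h1.2 hN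
    rw [abs_le]
    constructor
    · have h5 : (W.card : ℝ) * (-(ε * Cst)) ≤ W.card * (kerDimM B - Fintype.card N * kerDimM A) := by
        have h6 : 0 ≤ (W.card : ℝ) * ε := by positivity
        nlinarith [h2.1, h2.2, h3, h4, h6]
      exact le_of_mul_le_mul_left h5 hWpos
    · have h5 : (W.card : ℝ) * (kerDimM B - Fintype.card N * kerDimM A) ≤ W.card * (ε * Cst) := by
        have h6 : 0 ≤ (W.card : ℝ) * ε := by positivity
        nlinarith [h2.1, h2.2, h3, h4, h6]
      exact le_of_mul_le_mul_left h5 hWpos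
  have h0 : |kerDimM B - Fintype.card N * kerDimM A| ≤ 0 := by
    apply le_of_forall_pos_le_add
    intro δ hδ
    have := key (δ / Cst) (by positivity)
    rw [div_mul_cancel₀ _ hCpos.ne'] at this
    linarith
  have h1 := abs_nonpos_iff.1 h0
  linarith

/-- **Permanence under co-amenable overgroups.** -/
theorem kerDimM_perm [DecidableEq (G ⧸ H)] (hF : Am G (G ⧸ H))
    (A : K → L → (G →₀ ℂ)) (B : K × N → L × N → (G →₀ ℂ))
    (ρ : G →* Matrix N N ℂ) (hB : ∀ i a j b g, B (i, a) (j, b) g = A i j g * ρ g a b)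
    (hgood : ∀ (W : Finset (G ⧸ H)) (A' : K × W → L × W → (H →₀ ℂ))
      (B' : (K × W) × N → (L × W) × N → (H →₀ ℂ)),
      (∀ i a j b (h : H), B' (i, a) (j, b) h = A' i j h * ρ h a b) →
      kerDimM B' = Fintype.card N * kerDimM A') :
    kerDimM B = Fintype.card N * kerDimM A := by
  classical
  refine kerDimM_limitF hF A B ρ hB ?_
  intro W
  rw [kerDimM_sub_eq H W B, kerDimM_sub_eq H W A]
  -- first step
  let B1 : K × (N × W) → L × (N × W) → (H →₀ ℂ) := fun p q =>
    sub H W B ((p.1, p.2.1), p.2.2) ((q.1, q.2.1), q.2.2)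
  have h1 : kerDimM B1 = kerDimM (sub H W B) :=
    kerDimM_reindex (sub H W B) (Equiv.prodAssoc K N W).symm (Equiv.prodAssoc L N W).symm
  have hB1 : ∀ i a (y : W) j b (y' : W) (h : H), B1 (i, (a, y)) (j, (b, y')) h
      = sub H W A (i, y) (j, y') h
        * ρ ((y : G ⧸ H).out * (h : G) * (y' : G ⧸ H).out⁻¹) a b := by
    intro i a y j b y' h
    change sub H W B ((i, a), y) ((j, b), y') h = _
    rw [sub_apply, hB, sub_apply]
  -- the model
  let A' : K × W → L × W → (H →₀ ℂ) := sub H W A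
  let B' : (K × W) × N → (L × W) × N → (H →₀ ℂ) := fun p q =>
    Finsupp.onFinset (A' p.1 q.1).support (fun h => A' p.1 q.1 h * ρ h p.2 q.2) (by
      intro g hg
      rw [Finsupp.mem_support_iff]
      intro h0
      exact hg (by rw [h0, zero_mul]))
  have hg := hgood W A' B' (fun i a j b h => rfl)
  let C1 : K × (N × W) → L × (N × W) → (H →₀ ℂ) := fun p q =>
    B' ((p.1, p.2.2), p.2.1) ((q.1, q.2.2), q.2.1)
  have hC1 : ∀ i a (y : W) j b (y' : W) (h : H), C1 (i, (a, y)) (j, (b, y')) h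
      = sub H W A (i, y) (j, y') h * ρ h a b := fun i a y j b y' h => rfl
  have h3 : kerDimM C1 = kerDimM B' := by
    let e : K × (N × W) ≃ (K × W) × N :=
      { toFun := fun p => ((p.1, p.2.2), p.2.1)
        invFun := fun p => (p.1.1, (p.2, p.1.2))
        left_inv := fun _ => rfl
        right_inv := fun _ => rfl }
    let f : L × (N × W) ≃ (L × W) × N :=
      { toFun := fun p => ((p.1, p.2.2), p.2.1)
        invFun := fun p => (p.1.1, (p.2, p.1.2))
        left_inv := fun _ => rfl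
        right_inv := fun _ => rfl }
    exact kerDimM_reindex B' e f
  let V : Matrix (N × W) (N × W) ℂ := Matrix.blockDiagonal (fun y : W => ρ (y : G ⧸ H).out)
  have hVe : ∀ (a : N) (y : W) (b : N) (y' : W), V (a, y) (b, y')
      = if y = y' then ρ (y : G ⧸ H).out a b else 0 :=
    fun a y b y' => Matrix.blockDiagonal_apply' _ _ _ _ _
  have hV : IsUnit V := by
    have h2 : V * Matrix.blockDiagonal (fun y : W => ρ ((y : G ⧸ H).out)⁻¹) = 1 := by
      rw [← Matrix.blockDiagonal_mul]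
      simp only [← map_mul, mul_inv_cancel, map_one]
      exact Matrix.blockDiagonal_one
    exact IsUnit.of_mul_eq_one _ h2
  have h2 : kerDimM B1 = kerDimM C1 := by
    refine kerDimM_conj B1 C1 V hV ?_
    rintro i ⟨a, y⟩ j ⟨b, y'⟩ h
    rw [Fintype.sum_prod_type, Fintype.sum_prod_type]
    have e1 : ∀ x : N, ∑ z : W, B1 (i, (a, y)) (j, (x, z)) h * V (x, z) (b, y')
        = sub H W A (i, y) (j, y') h
          * (ρ ((y : G ⧸ H).out * (h : G) * (y' : G ⧸ H).out⁻¹) a x * ρ (y' : G ⧸ H).out x b) := by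
      intro x
      rw [Finset.sum_eq_single y']
      · rw [hB1, hVe, if_pos rfl, mul_assoc]
      · intro z _ hz
        rw [hVe, if_neg hz, mul_zero]
      · intro hh
        exact absurd (Finset.mem_univ _) hh
    have e2 : ∀ x : N, ∑ z : W, V (a, y) (x, z) * C1 (i, (x, z)) (j, (b, y')) h
        = sub H W A (i, y) (j, y') h * (ρ (y : G ⧸ H).out a x * ρ h x b) := by
      intro x
      rw [Finset.sum_eq_single y]
      · rw [hC1, hVe, if_pos rfl]
        ring
      · intro z _ hz
        rw [hVe, if_neg (Ne.symm hz), zero_mul]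
      · intro hh
        exact absurd (Finset.mem_univ _) hh
    simp only [e1, e2]
    rw [← Finset.mul_sum, ← Finset.mul_sum, ← Matrix.mul_apply, ← Matrix.mul_apply, ← map_mul,
      ← map_mul, inv_mul_cancel_right]
  rw [← h1, h2, h3, hg]

end

end Pool.Agent.X190.AT
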