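import Pool.Agent.X190.AT.Perm

set_option autoImplicit false
set_option linter.unusedSectionVars false

open scoped InnerProductSpace InnerProduct ENNReal Topology
open Filter

/-! Windows with two finite sets over a subgroup. -/

namespace Pool.Agent.X190.AT

open Pool.Agent.W649.ZL Pool.Agent.X190.TW

universe u v w z y

section
variable {G : Type u} {K : Type v} {L : Type w} {N : Type y} [Group G] [Fintype K] [Fintype L]
  [Fintype N] [DecidableEq K] [DecidableEq L] [DecidableEq N]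
variable (H : Subgroup G)

/-- the window as a matrix over the group algebra of the subgroup -/
noncomputable def sub2 (W V : Finset (G ⧸ H)) (A : K → L → (G →₀ ℂ)) :
    K × W → L × V → (H →₀ ℂ) := fun p q =>
  Finsupp.comapDomain (fun h : H => (p.2 : G ⧸ H).out * (h : G) * (q.2 : G ⧸ H).out⁻¹)
    (A p.1 q.1) (fun a _ b _ hab => by
      apply Subtype.ext
      simpa using hab)

theorem sub2_apply (W V : Finset (G ⧸ H)) (A : K → L → (G →₀ ℂ)) (k : K) (y' : W) (j : L) (y : V)
    (h : H) : sub2 H W V A (k, y') (j, y) h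
      = A k j ((y' : G ⧸ H).out * (h : G) * (y : G ⧸ H).out⁻¹) := rfl

/-- reindexing the sum -/
theorem sum_sub2 (W V : Finset (G ⧸ H)) [DecidableEq (G ⧸ H)] (A : K → L → (G →₀ ℂ)) (T : Finset G)
    (hT : ∀ i j, (A i j).support ⊆ T) (T' : Finset H)
    (hT' : ∀ p q, (sub2 H W V A p q).support ⊆ T') (k : K) (j : L) (y : V) (f : H → W → ℂ) :
    ∑ y' : W, ∑ h ∈ T', sub2 H W V A (k, y') (j, y) h * f h y'
      = ∑ t ∈ T, A k j t * (if ht : t • (y : G ⧸ H) ∈ W then f (hel H t y) ⟨_, ht⟩ else 0) := by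
  classical
  rw [← Finset.sum_product']
  have hmem : ∀ (y' : W) (h : H), sub2 H W V A (k, y') (j, y) h ≠ 0 → h ∈ T' := by
    intro y' h hh
    exact hT' _ _ (Finsupp.mem_support_iff.2 hh)
  refine Finset.sum_bij_ne_zero
    (fun p _ _ => (p.1 : G ⧸ H).out * (p.2 : G) * (y : G ⧸ H).out⁻¹) ?_ ?_ ?_ ?_
  · rintro ⟨y', h⟩ _ hne
    apply hT k j
    rw [Finsupp.mem_support_iff]
    intro h0
    apply hne
    rw [sub2_apply, h0, zero_mul]
  · rintro ⟨y1, h1⟩ _ _ ⟨y2, h2⟩ _ _ heq
    simp only at heq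
    have e1 : (y1 : G ⧸ H) = y2 := by
      rw [← smul_of H y y1 h1, ← smul_of H y y2 h2, heq]
    have e2 : y1 = y2 := Subtype.ext e1
    subst e2
    have e3 : (h1 : G) = h2 := by
      have := mul_right_cancel heq
      exact mul_left_cancel this
    rw [Subtype.ext e3]
  · intro t ht hne
    have ht1 : t • (y : G ⧸ H) ∈ W := by
      by_contra hcon
      apply hne
      rw [dif_neg hcon, mul_zero]
    have e1 : (t • (y : G ⧸ H)).out * ((hel H t y : H) : G) * (y : G ⧸ H).out⁻¹ = t := by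
      rw [hel_mul, mul_inv_cancel_right]
    have e2 : sub2 H W V A (k, ⟨_, ht1⟩) (j, y) (hel H t y) = A k j t := by
      rw [sub2_apply, e1]
    have e3 : A k j t ≠ 0 := by
      intro h0
      apply hne
      rw [h0, zero_mul]
    refine ⟨(⟨_, ht1⟩, hel H t y), ?_, ?_, e1⟩
    · rw [Finset.mem_product]
      exact ⟨Finset.mem_univ _, hmem _ _ (by rw [e2]; exact e3)⟩
    · simp only
      rw [e2]
      rw [dif_pos ht1] at hne
      exact hne
  · rintro ⟨y', h⟩ _ _
    simp only
    have e1 : ((y' : G ⧸ H).out * (h : G) * (y : G ⧸ H).out⁻¹) • (y : G ⧸ H) = y' := smul_of H y y' h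
    have e2 : ((y' : G ⧸ H).out * (h : G) * (y : G ⧸ H).out⁻¹) • (y : G ⧸ H) ∈ W := by
      rw [e1]
      exact y'.2
    rw [dif_pos e2, sub2_apply]
    have e3 : (⟨_, e2⟩ : W) = y' := Subtype.ext e1
    have e4 : hel H ((y' : G ⧸ H).out * (h : G) * (y : G ⧸ H).out⁻¹) y = h := by
      apply Subtype.ext
      have := hel_mul H ((y' : G ⧸ H).out * (h : G) * (y : G ⧸ H).out⁻¹) (y : G ⧸ H)
      rw [inv_mul_cancel_right] at this
      rw [e1] at this
      exact mul_left_cancel this
    rw [e3, e4]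

/-- the dimension of a window over the subgroup -/
theorem kerDimM_sub2_eq (W V : Finset (G ⧸ H)) [DecidableEq (G ⧸ H)] (A : K → L → (G →₀ ℂ)) :
    kerDimM (win W V A) = kerDimM (sub2 H W V A) := by
  classical
  obtain ⟨T, hT⟩ := exists_supp A
  obtain ⟨T', hT'⟩ := exists_supp (sub2 H W V A)
  obtain ⟨R, hR, hRk, hRa⟩ := op_win W V A T hT
  obtain ⟨S, hS, hSk, hSa⟩ := exists_opT (sub2 H W V A) T' hT'
  have hSa' : ∀ (F : EE H (K × W)) (v : H) (j : L) (y : V), S F (v, (j, y))
      = ∑ k : K, ∑ t ∈ T, A k j t * (if ht : t • (y : G ⧸ H) ∈ W then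
          F (hel H t y * v, (k, ⟨_, ht⟩)) else 0) := by
    intro F v j y
    rw [hSa, Fintype.sum_prod_type]
    refine Finset.sum_congr rfl fun k _ => ?_
    exact sum_sub2 H W V A T hT T' hT' k j y (fun h y' => F (h * v, (k, y')))
  rw [hRk, hSk, vd_eq_infDist _ (ContinuousLinearMap.isClosed_ker R),
    vd_eq_infDist _ (ContinuousLinearMap.isClosed_ker S)]
  refine Finset.sum_congr rfl fun p _ => ?_
  obtain ⟨k, y⟩ := p
  rw [← infDist_base _ (inv_ker R hR) (y : G ⧸ H).out (k, y)]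
  apply le_antisymm
  · let ι : ↥(Set.univ : Set (H × (K × W))) → G × (K × W) :=
      fun z => ((z.1.2.2 : G ⧸ H).out * (z.1.1 : G), z.1.2)
    have hι : Function.Injective ι := by
      rintro ⟨⟨x, k1, y1⟩, _⟩ ⟨⟨x', k2, y2⟩, _⟩ hh
      obtain ⟨h1, h2⟩ := Prod.mk.inj hh
      simp only at h1 h2
      obtain ⟨h3, h4⟩ := Prod.mk.inj h2
      subst h3 h4
      have h5 : x = x' := Subtype.ext (mul_left_cancel h1)
      subst h5
      rfl
    have hap : ∀ (F : EE G (K × W)) (v : H) (k : K) (y : W),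
        pull _ ι hι F (v, (k, y)) = F ((y : G ⧸ H).out * (v : G), (k, y)) := by
      intro F v k y
      rw [pull_apply, pullFun_mem _ _ _ _ (Set.mem_univ _)]
    refine one_sub_le' _ _ ⟨0, Submodule.zero_mem _⟩ _ _ (pull _ ι hι) ?_ ?_ ?_
    · intro F F'
      rw [pull_sub]
      exact norm_pull_le _ _ _ _
    · ext ⟨v, k', y'⟩
      rw [hap]
      by_cases h : (v, (k', y')) = ((1 : H), (k, y))
      · obtain ⟨rfl, h2⟩ := Prod.mk.inj h
        obtain ⟨rfl, rfl⟩ := Prod.mk.inj h2
        rw [OneMemClass.coe_one, mul_one, dl_apply_self, dl_apply_self]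
      · rw [dl_apply_ne _ _ h, dl_apply_ne]
        intro h1
        obtain ⟨h2, h3⟩ := Prod.mk.inj h1
        apply h
        rw [h3]
        obtain ⟨_, h5⟩ := Prod.mk.inj h3
        subst h5
        rw [mul_eq_left] at h2
        have h7 : v = 1 := Subtype.ext h2
        rw [h7]
    · intro F hF
      have hF0 : R F = 0 := hF
      change S (pull _ ι hι F) = 0
      ext ⟨v, j, y1⟩
      have h1 : R F ((y1 : G ⧸ H).out * (v : G), (j, y1)) = 0 := by
        rw [hF0]
        rfl
      rw [hRa] at h1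
      rw [hSa']
      refine Eq.trans ?_ h1
      refine Finset.sum_congr rfl fun k _ => Finset.sum_congr rfl fun t _ => ?_
      congr 1
      by_cases ht : t • (y1 : G ⧸ H) ∈ W
      · rw [dif_pos ht, xt_mem _ _ _ _ _ ht, hap]
        rw [Subgroup.coe_mul, ← mul_assoc, hel_mul, mul_assoc]
      · rw [dif_neg ht, xt_notMem _ _ _ _ _ ht]
  · let D : Set (G × (K × W)) := {z | (z.2.2 : G ⧸ H).out⁻¹ * z.1 ∈ H}
    let ι : D → H × (K × W) := fun z => (⟨(z.1.2.2 : G ⧸ H).out⁻¹ * z.1.1, z.2⟩, z.1.2)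
    have hι : Function.Injective ι := by
      rintro ⟨⟨x, k1, y1⟩, _⟩ ⟨⟨x', k2, y2⟩, _⟩ hh
      obtain ⟨h1, h2⟩ := Prod.mk.inj hh
      simp only at h2
      obtain ⟨h3, h4⟩ := Prod.mk.inj h2
      subst h3 h4
      have h5 : x = x' := mul_left_cancel (congrArg Subtype.val h1)
      subst h5
      rfl
    have hap : ∀ (F : EE H (K × W)) (x : G) (k : K) (y : W)
        (h : (y : G ⧸ H).out⁻¹ * x ∈ H),
        pull D ι hι F (x, (k, y)) = F (⟨_, h⟩, (k, y)) := by
      intro F x k y h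
      rw [pull_apply, pullFun_mem D ι F (x, (k, y)) h]
    have hap0 : ∀ (F : EE H (K × W)) (x : G) (k : K) (y : W)
        (h : ¬ (y : G ⧸ H).out⁻¹ * x ∈ H),
        pull D ι hι F (x, (k, y)) = 0 := by
      intro F x k y h
      rw [pull_apply, pullFun_notMem D ι F (x, (k, y)) h]
    refine one_sub_le' _ _ ⟨0, Submodule.zero_mem _⟩ _ _ (pull D ι hι) ?_ ?_ ?_
    · intro F F'
      rw [pull_sub]
      exact norm_pull_le _ _ _ _
    · ext ⟨x, k', y'⟩
      by_cases hx : (y' : G ⧸ H).out⁻¹ * x ∈ H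
      · rw [hap _ _ _ _ hx]
        by_cases h : (x, (k', y')) = ((y : G ⧸ H).out, (k, y))
        · obtain ⟨rfl, h2⟩ := Prod.mk.inj h
          obtain ⟨rfl, rfl⟩ := Prod.mk.inj h2
          rw [dl_apply_self]
          have h3 : (⟨(y' : G ⧸ H).out⁻¹ * (y' : G ⧸ H).out, hx⟩ : H) = 1 :=
            Subtype.ext (inv_mul_cancel _)
          rw [h3, dl_apply_self]
        · rw [dl_apply_ne _ _ h, dl_apply_ne]
          intro h1
          obtain ⟨h2, h3⟩ := Prod.mk.inj h1
          apply h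
          rw [h3]
          obtain ⟨_, h5⟩ := Prod.mk.inj h3
          subst h5
          have h6 : (y' : G ⧸ H).out⁻¹ * x = 1 := congrArg Subtype.val h2
          rw [inv_mul_eq_one] at h6
          rw [← h6]
      · rw [hap0 _ _ _ _ hx, dl_apply_ne]
        intro h1
        obtain ⟨h2, h3⟩ := Prod.mk.inj h1
        obtain ⟨_, h5⟩ := Prod.mk.inj h3
        apply hx
        rw [h2, h5, inv_mul_cancel]
        exact H.one_mem
    · intro F hF
      have hF0 : S F = 0 := hF
      change R (pull D ι hι F) = 0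
      ext ⟨x, j, y1⟩
      rw [hRa]
      change _ = (0 : ℂ)
      have hrel : ∀ t : G, (t • (y1 : G ⧸ H)).out⁻¹ * (t * x)
          = (hel H t y1 : G) * ((y1 : G ⧸ H).out⁻¹ * x) := by
        intro t
        have h1 := hel_mul H t (y1 : G ⧸ H)
        have h2 : (hel H t y1 : G) = (t • (y1 : G ⧸ H)).out⁻¹ * (t * (y1 : G ⧸ H).out) := by
          rw [← h1]
          group
        rw [h2]
        group
      by_cases hx : (y1 : G ⧸ H).out⁻¹ * x ∈ H
      · have h1 : S F (⟨_, hx⟩, (j, y1)) = 0 := by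
          rw [hF0]
          rfl
        rw [hSa'] at h1
        rw [← h1]
        refine Finset.sum_congr rfl fun k _ => Finset.sum_congr rfl fun t _ => ?_
        congr 1
        by_cases ht : t • (y1 : G ⧸ H) ∈ W
        · rw [dif_pos ht, xt_mem _ _ _ _ _ ht]
          have h2 : (t • (y1 : G ⧸ H)).out⁻¹ * (t * x) ∈ H := by
            rw [hrel]
            exact H.mul_mem (hel H t y1).2 hx
          rw [hap _ _ _ _ h2]
          have h3 : (⟨_, h2⟩ : H) = hel H t y1 * ⟨_, hx⟩ := Subtype.ext (hrel t)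
          rw [h3]
        · rw [dif_neg ht, xt_notMem _ _ _ _ _ ht]
      · apply Finset.sum_eq_zero
        intro k _
        apply Finset.sum_eq_zero
        intro t _
        by_cases ht : t • (y1 : G ⧸ H) ∈ W
        · rw [xt_mem _ _ _ _ _ ht, hap0, mul_zero]
          rw [hrel]
          intro h2
          apply hx
          have h3 := H.mul_mem (H.inv_mem (hel H t y1).2) h2
          rwa [inv_mul_cancel_left] at h3
        · rw [xt_notMem _ _ _ _ _ ht, mul_zero]

/-- the operator of such a window -/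
theorem op_sub2 (W V : Finset (G ⧸ H)) [DecidableEq (G ⧸ H)] (A : K → L → (G →₀ ℂ))
    (T : Finset G) (hT : ∀ i j, (A i j).support ⊆ T) :
    ∃ S : EE H (K × W) →L[ℂ] EE H (L × V), Eqv S ∧
    kerDimM (sub2 H W V A) = vd (LinearMap.ker (S : EE H (K × W) →ₗ[ℂ] EE H (L × V))) ∧
    ∀ (F : EE H (K × W)) (v : H) (j : L) (y : V), S F (v, (j, y))
      = ∑ k : K, ∑ t ∈ T, A k j t * (if ht : t • (y : G ⧸ H) ∈ W then
          F (hel H t y * v, (k, ⟨_, ht⟩)) else 0) := by
  classical
  obtain ⟨T', hT'⟩ := exists_supp (sub2 H W V A)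
  obtain ⟨S, hS, hSk, hSa⟩ := exists_opT (sub2 H W V A) T' hT'
  refine ⟨S, hS, hSk, ?_⟩
  intro F v j y
  rw [hSa, Fintype.sum_prod_type]
  refine Finset.sum_congr rfl fun k _ => ?_
  exact sum_sub2 H W V A T hT T' hT' k j y (fun h y' => F (h * v, (k, y')))

end

end Pool.Agent.X190.AT
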