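import Pool.Agent.X190.TW.Rep2

set_option autoImplicit false
set_option linter.unusedSectionVars false

open scoped InnerProductSpace InnerProduct ENNReal Topology
open Filter

/-! Windows: finite pieces of a matrix over the group algebra along an action. -/

namespace Pool.Agent.X190.AT

open Pool.Agent.W649.ZL Pool.Agent.X190.TW

universe u v w z

/-! partial injections -/

section
variable {X Z : Type*}

open Classical in
/-- the pull back along a partial map, extended by zero -/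
noncomputable def pullFun (D : Set Z) (ι : D → X) (f : X → ℂ) (z : Z) : ℂ :=
  if h : z ∈ D then f (ι ⟨z, h⟩) else 0

theorem pullFun_mem (D : Set Z) (ι : D → X) (f : X → ℂ) (z : Z) (h : z ∈ D) :
    pullFun D ι f z = f (ι ⟨z, h⟩) := by
  unfold pullFun
  rw [dif_pos h]

theorem pullFun_notMem (D : Set Z) (ι : D → X) (f : X → ℂ) (z : Z) (h : z ∉ D) :
    pullFun D ι f z = 0 := by
  unfold pullFun
  rw [dif_neg h]

theorem summable_pull (D : Set Z) (ι : D → X) (hι : Function.Injective ι)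
    (f : lp (fun _ : X => ℂ) 2) : Summable (fun z => ‖pullFun D ι f z‖ ^ 2) := by
  have h1 := (memlp_two_iff _).1 f.2
  have h2 := h1.comp_injective hι
  rw [← (Subtype.val_injective (p := fun z => z ∈ D)).summable_iff]
  · refine h2.congr fun x => ?_
    simp only [Function.comp]
    rw [pullFun_mem D ι f x.1 x.2]
  · intro z hz
    rw [pullFun_notMem, norm_zero, zero_pow two_ne_zero]
    intro h
    exact hz ⟨⟨z, h⟩, rfl⟩

/-- the pull back of a square-summable function -/
noncomputable def pull (D : Set Z) (ι : D → X) (hι : Function.Injective ι)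
    (f : lp (fun _ : X => ℂ) 2) : lp (fun _ : Z => ℂ) 2 :=
  ⟨pullFun D ι f, (memlp_two_iff _).2 (summable_pull D ι hι f)⟩

theorem pull_apply (D : Set Z) (ι : D → X) (hι : Function.Injective ι)
    (f : lp (fun _ : X => ℂ) 2) (z : Z) : pull D ι hι f z = pullFun D ι f z := rfl

theorem norm_pull_le (D : Set Z) (ι : D → X) (hι : Function.Injective ι)
    (f : lp (fun _ : X => ℂ) 2) : ‖pull D ι hι f‖ ≤ ‖f‖ := by
  have e2 : ‖pull D ι hι f‖ ^ 2 ≤ ‖f‖ ^ 2 := by
    rw [norm_sq_tsum, norm_sq_tsum]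
    have h1 := (memlp_two_iff _).1 f.2
    have h2 : ∑' z, ‖pull D ι hι f z‖ ^ 2 = ∑' z : D, ‖f (ι z)‖ ^ 2 := by
      rw [← (Subtype.val_injective (p := fun z => z ∈ D)).tsum_eq]
      · refine tsum_congr fun x => ?_
        rw [pull_apply, pullFun_mem D ι f x.1 x.2]
      · intro z hz
        by_contra hcon
        apply hz
        simp only
        rw [pull_apply, pullFun_notMem, norm_zero, zero_pow two_ne_zero]
        intro h
        exact hcon ⟨⟨z, h⟩, rfl⟩
    rw [h2]
    exact Summable.tsum_le_tsum_of_inj _ hι (fun _ _ => by positivity) (fun _ => le_rfl)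
      (h1.comp_injective hι) h1
  exact (sq_le_sq₀ (norm_nonneg _) (norm_nonneg _)).1 e2

theorem pull_sub (D : Set Z) (ι : D → X) (hι : Function.Injective ι)
    (f g : lp (fun _ : X => ℂ) 2) : pull D ι hι f - pull D ι hι g = pull D ι hι (f - g) := by
  ext z
  change pullFun D ι f z - pullFun D ι g z = pullFun D ι (fun x => f x - g x) z
  by_cases h : z ∈ D
  · rw [pullFun_mem _ _ _ _ h, pullFun_mem _ _ _ _ h, pullFun_mem _ _ _ _ h]
  · rw [pullFun_notMem _ _ _ _ h, pullFun_notMem _ _ _ _ h, pullFun_notMem _ _ _ _ h, sub_zero]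

end

section
variable {G : Type u} {K : Type v} {L : Type w} [Group G] [Fintype K] [Fintype L]
  [DecidableEq K] [DecidableEq L]

/-- comparison of the terms of two dimensions -/
theorem one_sub_le {K1 K2 : Type*} (P : Submodule ℂ (EE G K1)) (Q : Submodule ℂ (EE G K2))
    (i : K1) (j : K2) (Φ : EE G K1 → EE G K2) (hΦ : ∀ f g, ‖Φ f - Φ g‖ ≤ ‖f - g‖)
    (hd : Φ (dl ((1 : G), i)) = dl ((1 : G), j)) (hm : ∀ f ∈ P, Φ f ∈ Q) :
    1 - Metric.infDist (dl ((1 : G), i)) (P : Set (EE G K1)) ^ 2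
      ≤ 1 - Metric.infDist (dl ((1 : G), j)) (Q : Set (EE G K2)) ^ 2 := by
  have hne : (P : Set (EE G K1)).Nonempty := ⟨0, P.zero_mem⟩
  have h1 : Metric.infDist (dl ((1 : G), j)) (Q : Set (EE G K2))
      ≤ Metric.infDist (dl ((1 : G), i)) (P : Set (EE G K1)) := by
    apply (Metric.le_infDist hne).2
    intro f hf
    refine (Metric.infDist_le_dist_of_mem (hm f hf)).trans ?_
    rw [← hd, dist_eq_norm, dist_eq_norm]
    exact hΦ _ _
  have h2 := pow_le_pow_left₀ Metric.infDist_nonneg h1 2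
  linarith

/-! reindexing -/

theorem kerDimM_reindex_le {K' L' : Type*} [Fintype K'] [Fintype L'] [DecidableEq K']
    [DecidableEq L'] (A : K → L → (G →₀ ℂ)) (e : K' ≃ K) (f : L' ≃ L) :
    kerDimM (fun i j => A (e i) (f j)) ≤ kerDimM A := by
  classical
  obtain ⟨T, hT⟩ := exists_supp A
  obtain ⟨S, hS, hSk, hSa⟩ := exists_opT A T hT
  obtain ⟨R, hR, hRk, hRa⟩ := exists_opT (fun i j => A (e i) (f j)) T (fun i j => hT _ _)
  rw [hSk, hRk, vd_eq_infDist _ (ContinuousLinearMap.isClosed_ker S),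
    vd_eq_infDist _ (ContinuousLinearMap.isClosed_ker R), ← Equiv.sum_comp e]
  refine Finset.sum_le_sum fun i _ => ?_
  let ι : ↥(Set.univ : Set (G × K)) → G × K' := fun x => (x.1.1, e.symm x.1.2)
  have hι : Function.Injective ι := by
    rintro ⟨⟨x, k⟩, _⟩ ⟨⟨y, k'⟩, _⟩ h
    obtain ⟨h1, h2⟩ := Prod.mk.inj h
    simp only at h1 h2
    rw [Subtype.mk.injEq, h1, e.symm.injective h2]
  have hap : ∀ (F : EE G K') (x : G) (k : K), pull _ ι hι F (x, k) = F (x, e.symm k) := by
    intro F x k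
    rw [pull_apply, pullFun_mem _ _ _ _ (Set.mem_univ _)]
  refine one_sub_le _ _ i (e i) (pull _ ι hι) ?_ ?_ ?_
  · intro F F'
    rw [pull_sub]
    exact norm_pull_le _ _ _ _
  · ext ⟨x, k⟩
    rw [hap]
    by_cases h : (x, e.symm k) = (1, i)
    · obtain ⟨rfl, h2⟩ := Prod.mk.inj h
      have h3 : k = e i := by rw [← h2, Equiv.apply_symm_apply]
      rw [h2, h3, dl_apply_self, dl_apply_self]
    · rw [dl_apply_ne _ _ h, dl_apply_ne]
      intro h1
      obtain ⟨h2, h3⟩ := Prod.mk.inj h1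
      apply h
      rw [h2, h3, Equiv.symm_apply_apply]
  · intro F hF
    have hF0 : R F = 0 := hF
    change S (pull _ ι hι F) = 0
    ext ⟨x, j⟩
    have h1 : R F (x, f.symm j) = 0 := by
      rw [hF0]
      rfl
    rw [hRa, ← Equiv.sum_comp e.symm] at h1
    rw [hSa]
    change _ = (0 : ℂ)
    rw [← h1]
    refine Finset.sum_congr rfl fun k _ => Finset.sum_congr rfl fun t _ => ?_
    rw [hap]
    simp only [Equiv.apply_symm_apply]

theorem kerDimM_reindex {K' L' : Type*} [Fintype K'] [Fintype L'] [DecidableEq K']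
    [DecidableEq L'] (A : K → L → (G →₀ ℂ)) (e : K' ≃ K) (f : L' ≃ L) :
    kerDimM (fun i j => A (e i) (f j)) = kerDimM A := by
  apply le_antisymm (kerDimM_reindex_le A e f)
  have h := kerDimM_reindex_le (fun i j => A (e i) (f j)) e.symm f.symm
  simp only [Equiv.apply_symm_apply] at h
  exact h

/-! windows -/

variable {Ω : Type z} [MulAction G Ω] [DecidableEq Ω]

/-- the window of a matrix given by two finite sets -/
noncomputable def win (W V : Finset Ω) (A : K → L → (G →₀ ℂ)) : K × W → L × V → (G →₀ ℂ) :=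
  fun p q => (A p.1 q.1).filter (fun t => t • (q.2 : Ω) = (p.2 : Ω))

/-- the extension by zero in the last variable -/
noncomputable def xt (W : Finset Ω) (F : EE G (K × W)) (x : G) (k : K) (y : Ω) : ℂ :=
  if h : y ∈ W then F (x, (k, ⟨y, h⟩)) else 0

theorem xt_mem (W : Finset Ω) (F : EE G (K × W)) (x : G) (k : K) (y : Ω) (h : y ∈ W) :
    xt W F x k y = F (x, (k, ⟨y, h⟩)) := by
  unfold xt
  rw [dif_pos h]

theorem xt_notMem (W : Finset Ω) (F : EE G (K × W)) (x : G) (k : K) (y : Ω) (h : y ∉ W) :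
    xt W F x k y = 0 := by
  unfold xt
  rw [dif_neg h]

theorem win_apply_self (W V : Finset Ω) (A : K → L → (G →₀ ℂ)) (p : K × W) (q : L × V) (t : G)
    (h : t • (q.2 : Ω) = (p.2 : Ω)) : win W V A p q t = A p.1 q.1 t := by
  unfold win
  exact Finsupp.filter_apply_pos _ _ h

theorem win_apply_ne (W V : Finset Ω) (A : K → L → (G →₀ ℂ)) (p : K × W) (q : L × V) (t : G)
    (h : t • (q.2 : Ω) ≠ (p.2 : Ω)) : win W V A p q t = 0 := by
  unfold win
  exact Finsupp.filter_apply_neg _ _ h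

theorem op_win (W V : Finset Ω) (A : K → L → (G →₀ ℂ)) (T : Finset G)
    (hT : ∀ i j, (A i j).support ⊆ T) :
    ∃ S : EE G (K × W) →L[ℂ] EE G (L × V), Eqv S ∧
    kerDimM (win W V A) = vd (LinearMap.ker (S : EE G (K × W) →ₗ[ℂ] EE G (L × V))) ∧
    ∀ (F : EE G (K × W)) (x : G) (j : L) (y : V), S F (x, (j, y))
      = ∑ k : K, ∑ t ∈ T, A k j t * xt W F (t * x) k (t • (y : Ω)) := by
  classical
  obtain ⟨S, h1, h2, h3⟩ := exists_opT (win W V A) T (by
    intro p q t ht
    by_cases hh : t • (q.2 : Ω) = (p.2 : Ω)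
    · apply hT p.1 q.1
      rw [Finsupp.mem_support_iff] at ht ⊢
      rw [win_apply_self _ _ _ _ _ _ hh] at ht
      exact ht
    · rw [Finsupp.mem_support_iff] at ht
      exact absurd (win_apply_ne _ _ _ _ _ _ hh) ht)
  refine ⟨S, h1, h2, ?_⟩
  intro F x j y
  rw [h3, Fintype.sum_prod_type]
  refine Finset.sum_congr rfl fun k _ => ?_
  rw [Finset.sum_comm]
  refine Finset.sum_congr rfl fun t _ => ?_
  by_cases hy : t • (y : Ω) ∈ W
  · rw [xt_mem _ _ _ _ _ hy, Finset.sum_eq_single ⟨t • (y : Ω), hy⟩]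
    · rw [win_apply_self]
      rfl
    · intro y' _ hy'
      rw [win_apply_ne, zero_mul]
      intro h
      exact hy' (Subtype.ext h.symm)
    · intro h
      exact absurd (Finset.mem_univ _) h
  · rw [xt_notMem _ _ _ _ _ hy, mul_zero]
    apply Finset.sum_eq_zero
    intro y' _
    rw [win_apply_ne, zero_mul]
    intro h
    exact hy (h ▸ y'.2)

/-- more columns -/
theorem win_mono (W V V' : Finset Ω) (hV : V ⊆ V') (A : K → L → (G →₀ ℂ)) :
    kerDimM (win W V A) ≤ kerDimM (win W V' A) + (Fintype.card L : ℝ) * (V' \ V).card := by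
  classical
  obtain ⟨T, hT⟩ := exists_supp A
  obtain ⟨S, hS, hSk, hSa⟩ := op_win W V A T hT
  obtain ⟨S', hS', hSk', hSa'⟩ := op_win W V' A T hT
  obtain ⟨R, hR, hRk, hRa⟩ := op_win W (V' \ V) A T hT
  have hrn := rank_nullity R hR (inv_ker S hS) (ContinuousLinearMap.isClosed_ker S)
  have h1 : vd (LinearMap.ker (S : EE G (K × W) →ₗ[ℂ] EE G (L × V))
        ⊓ LinearMap.ker (R : EE G (K × W) →ₗ[ℂ] EE G (L × ↥(V' \ V))))
      ≤ vd (LinearMap.ker (S' : EE G (K × W) →ₗ[ℂ] EE G (L × V'))) := by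
    apply vd_mono
    rintro F ⟨hF1, hF2⟩
    have hF1' : S F = 0 := hF1
    have hF2' : R F = 0 := hF2
    change S' F = 0
    ext ⟨x, j, y⟩
    rw [hSa']
    change _ = (0 : ℂ)
    by_cases hy : (y : Ω) ∈ V
    · have h2 : S F (x, (j, ⟨y, hy⟩)) = 0 := by
        rw [hF1']
        rfl
      rw [hSa] at h2
      exact h2
    · have h2 : R F (x, (j, ⟨y, Finset.mem_sdiff.2 ⟨y.2, hy⟩⟩)) = 0 := by
        rw [hF2']
        rfl
      rw [hRa] at h2
      exact h2
  have h2 : vd ((LinearMap.ker (S : EE G (K × W) →ₗ[ℂ] EE G (L × V))).map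
      (R : EE G (K × W) →ₗ[ℂ] EE G (L × ↥(V' \ V)))) ≤ (Fintype.card L : ℝ) * (V' \ V).card := by
    refine (vd_mono le_top).trans ?_
    rw [vd_top, Fintype.card_prod, Fintype.card_coe]
    push_cast
    exact le_rfl
  rw [hSk, hSk', hrn]
  exact add_le_add h1 h2

/-- the window with the inner columns -/
theorem win_ge (W V : Finset Ω) (A : K → L → (G →₀ ℂ)) (T : Finset G)
    (hT : ∀ i j, (A i j).support ⊆ T) (hV : ∀ y ∈ V, ∀ t ∈ T, t • y ∈ W) :
    (W.card : ℝ) * kerDimM A ≤ kerDimM (win W V A) := by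
  classical
  obtain ⟨S, hS, hSk, hSa⟩ := exists_opT A T hT
  obtain ⟨R, hR, hRk, hRa⟩ := op_win W V A T hT
  rw [hSk, hRk, vd_eq_infDist _ (ContinuousLinearMap.isClosed_ker S),
    vd_eq_infDist _ (ContinuousLinearMap.isClosed_ker R), Fintype.sum_prod_type, Finset.mul_sum]
  refine Finset.sum_le_sum fun k _ => ?_
  rw [← Fintype.card_coe, ← nsmul_eq_mul, ← Finset.card_univ, ← Finset.sum_const]
  refine Finset.sum_le_sum fun c _ => ?_
  let D : Set (G × (K × W)) := {z | z.1 • (c : Ω) = (z.2.2 : Ω)}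
  let ι : D → G × K := fun z => (z.1.1, z.1.2.1)
  have hι : Function.Injective ι := by
    rintro ⟨⟨x, k, y⟩, h⟩ ⟨⟨x', k', y'⟩, h'⟩ hh
    obtain ⟨h1, h2⟩ := Prod.mk.inj hh
    simp only at h1 h2
    subst h1 h2
    have h3 : x • (c : Ω) = (y : Ω) := h
    have h4 : x • (c : Ω) = (y' : Ω) := h'
    have h5 : y = y' := Subtype.ext (h3.symm.trans h4)
    subst h5
    rfl
  have hap : ∀ (F : EE G K) (x : G) (k : K) (y : W), x • (c : Ω) = (y : Ω) →
      pull D ι hι F (x, (k, y)) = F (x, k) := by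
    intro F x k y h
    rw [pull_apply, pullFun_mem D ι F (x, (k, y)) h]
  have hap0 : ∀ (F : EE G K) (x : G) (k : K) (y : W), x • (c : Ω) ≠ (y : Ω) →
      pull D ι hι F (x, (k, y)) = 0 := by
    intro F x k y h
    rw [pull_apply, pullFun_notMem D ι F (x, (k, y)) h]
  have hxt : ∀ (F : EE G K) (x : G) (k : K) (y : Ω), y ∈ W →
      xt W (pull D ι hι F) x k y = if x • (c : Ω) = y then F (x, k) else 0 := by
    intro F x k y hy
    rw [xt_mem _ _ _ _ _ hy]
    split_ifs with h
    · exact hap F x k ⟨y, hy⟩ h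
    · exact hap0 F x k ⟨y, hy⟩ h
  refine one_sub_le _ _ k (k, c) (pull D ι hι) ?_ ?_ ?_
  · intro F F'
    rw [pull_sub]
    exact norm_pull_le _ _ _ _
  · ext ⟨x, k', y⟩
    by_cases h : x • (c : Ω) = (y : Ω)
    · rw [hap _ _ _ _ h]
      by_cases hx : (x, k') = (1, k)
      · obtain ⟨rfl, rfl⟩ := Prod.mk.inj hx
        have hyc : y = c := by
          apply Subtype.ext
          rw [← h, one_smul]
        rw [hyc, dl_apply_self, dl_apply_self]
      · rw [dl_apply_ne _ _ hx, dl_apply_ne]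
        intro h1
        obtain ⟨h2, h3⟩ := Prod.mk.inj h1
        apply hx
        rw [h2, (Prod.mk.inj h3).1]
    · rw [hap0 _ _ _ _ h, dl_apply_ne]
      intro h1
      obtain ⟨h2, h3⟩ := Prod.mk.inj h1
      apply h
      rw [h2, (Prod.mk.inj h3).2, one_smul]
  · intro F hF
    have hF0 : S F = 0 := hF
    change R (pull D ι hι F) = 0
    ext ⟨x, j, y⟩
    rw [hRa]
    change _ = (0 : ℂ)
    by_cases h : x • (c : Ω) = (y : Ω)
    · have h1 : S F (x, j) = 0 := by
        rw [hF0]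
        rfl
      rw [hSa] at h1
      rw [← h1]
      refine Finset.sum_congr rfl fun k _ => Finset.sum_congr rfl fun t ht => ?_
      rw [hxt _ _ _ _ (hV y y.2 t ht), if_pos]
      rw [mul_smul, h]
    · apply Finset.sum_eq_zero
      intro k _
      apply Finset.sum_eq_zero
      intro t ht
      rw [hxt _ _ _ _ (hV y y.2 t ht), if_neg, mul_zero]
      rw [mul_smul]
      intro h2
      exact h (smul_left_cancel t h2)

/-- the window with all the columns -/
theorem win_le (W V : Finset Ω) (A : K → L → (G →₀ ℂ)) (T : Finset G)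
    (hT : ∀ i j, (A i j).support ⊆ T) (hV : ∀ y, y ∉ V → ∀ t ∈ T, t • y ∉ W) :
    kerDimM (win W V A) ≤ (W.card : ℝ) * kerDimM A := by
  classical
  obtain ⟨S, hS, hSk, hSa⟩ := exists_opT A T hT
  obtain ⟨R, hR, hRk, hRa⟩ := op_win W V A T hT
  rw [hSk, hRk, vd_eq_infDist _ (ContinuousLinearMap.isClosed_ker S),
    vd_eq_infDist _ (ContinuousLinearMap.isClosed_ker R), Fintype.sum_prod_type, Finset.mul_sum]
  refine Finset.sum_le_sum fun k _ => ?_
  rw [← Fintype.card_coe, ← nsmul_eq_mul, ← Finset.card_univ, ← Finset.sum_const]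
  refine Finset.sum_le_sum fun c _ => ?_
  let D : Set (G × K) := {z | z.1 • (c : Ω) ∈ W}
  let ι : D → G × (K × W) := fun z => (z.1.1, (z.1.2, ⟨z.1.1 • (c : Ω), z.2⟩))
  have hι : Function.Injective ι := by
    rintro ⟨⟨x, k⟩, h⟩ ⟨⟨x', k'⟩, h'⟩ hh
    obtain ⟨h1, h2⟩ := Prod.mk.inj hh
    obtain ⟨h3, h4⟩ := Prod.mk.inj h2
    simp only at h1 h3
    subst h1 h3
    rfl
  have hap : ∀ (F : EE G (K × W)) (x : G) (k : K),
      pull D ι hι F (x, k) = xt W F x k (x • (c : Ω)) := by
    intro F x k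
    rw [pull_apply]
    by_cases h : x • (c : Ω) ∈ W
    · rw [pullFun_mem D ι F (x, k) h, xt_mem _ _ _ _ _ h]
    · rw [pullFun_notMem D ι F (x, k) h, xt_notMem _ _ _ _ _ h]
  refine one_sub_le _ _ (k, c) k (pull D ι hι) ?_ ?_ ?_
  · intro F F'
    rw [pull_sub]
    exact norm_pull_le _ _ _ _
  · ext ⟨x, k'⟩
    rw [hap]
    by_cases hx : (x, k') = (1, k)
    · obtain ⟨rfl, rfl⟩ := Prod.mk.inj hx
      have hc : (1 : G) • (c : Ω) ∈ W := by
        rw [one_smul]
        exact c.2
      rw [xt_mem _ _ _ _ _ hc, dl_apply_self]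
      have h1 : (⟨(1 : G) • (c : Ω), hc⟩ : W) = c := Subtype.ext (one_smul _ _)
      rw [h1, dl_apply_self]
    · rw [dl_apply_ne _ _ hx]
      by_cases h : x • (c : Ω) ∈ W
      · rw [xt_mem _ _ _ _ _ h, dl_apply_ne]
        intro h1
        obtain ⟨h2, h3⟩ := Prod.mk.inj h1
        apply hx
        rw [h2, (Prod.mk.inj h3).1]
      · rw [xt_notMem _ _ _ _ _ h]
  · intro F hF
    have hF0 : R F = 0 := hF
    change S (pull D ι hι F) = 0
    ext ⟨x, j⟩
    rw [hSa]
    change _ = (0 : ℂ)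
    by_cases h : x • (c : Ω) ∈ V
    · have h1 : R F (x, (j, ⟨x • (c : Ω), h⟩)) = 0 := by
        rw [hF0]
        rfl
      rw [hRa] at h1
      rw [← h1]
      refine Finset.sum_congr rfl fun k _ => Finset.sum_congr rfl fun t ht => ?_
      rw [hap, mul_smul]
    · apply Finset.sum_eq_zero
      intro k _
      apply Finset.sum_eq_zero
      intro t ht
      rw [hap, mul_smul, xt_notMem _ _ _ _ _ (hV _ h t ht), mul_zero]

/-- the square window -/
theorem win_sq (W : Finset Ω) (A : K → L → (G →₀ ℂ)) (T : Finset G)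
    (hT : ∀ i j, (A i j).support ⊆ T) (b : ℝ)
    (hb : ∀ t ∈ T, ((W.filter fun y => t • y ∉ W).card : ℝ) ≤ b)
    (hb' : ∀ t ∈ T, ((W.filter fun y => t⁻¹ • y ∉ W).card : ℝ) ≤ b) :
    |kerDimM (win W W A) - (W.card : ℝ) * kerDimM A| ≤ (Fintype.card L : ℝ) * (T.card * b) := by
  classical
  have hL : (0 : ℝ) ≤ (Fintype.card L : ℝ) := Nat.cast_nonneg _
  rw [abs_le]
  constructor
  · let V := W.filter (fun y => ∀ t ∈ T, t • y ∈ W)
    have h1 := win_ge W V A T hT (by
      intro y hy t ht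
      exact (Finset.mem_filter.1 hy).2 t ht)
    have h2 := win_mono W V W (Finset.filter_subset _ _) A
    have h3 : ((W \ V).card : ℝ) ≤ T.card * b := by
      have h4 : W \ V ⊆ T.biUnion (fun t => W.filter fun y => t • y ∉ W) := by
        intro y hy
        rw [Finset.mem_sdiff] at hy
        rw [Finset.mem_biUnion]
        by_contra hcon
        push Not at hcon
        apply hy.2
        rw [Finset.mem_filter]
        refine ⟨hy.1, ?_⟩
        intro t ht
        by_contra h5
        exact hcon t ht (Finset.mem_filter.2 ⟨hy.1, h5⟩)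
      have h5 : ((W \ V).card : ℝ) ≤ ∑ t ∈ T, ((W.filter fun y => t • y ∉ W).card : ℝ) := by
        exact_mod_cast (Finset.card_le_card h4).trans Finset.card_biUnion_le
      refine h5.trans ((Finset.sum_le_sum hb).trans ?_)
      rw [Finset.sum_const, nsmul_eq_mul]
    have h6 := mul_le_mul_of_nonneg_left h3 hL
    linarith
  · let V := W ∪ T.biUnion (fun t => W.image (fun y => t⁻¹ • y))
    have h1 := win_le W V A T hT (by
      intro y hy t ht hty
      apply hy
      rw [Finset.mem_union, Finset.mem_biUnion]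
      right
      refine ⟨t, ht, ?_⟩
      rw [Finset.mem_image]
      exact ⟨t • y, hty, inv_smul_smul t y⟩)
    have h2 := win_mono W W V Finset.subset_union_left A
    have h3 : ((V \ W).card : ℝ) ≤ T.card * b := by
      have h4 : V \ W ⊆ T.biUnion (fun t => (W.filter fun y => t⁻¹ • y ∉ W).image
          (fun y => t⁻¹ • y)) := by
        intro y hy
        rw [Finset.mem_sdiff, Finset.mem_union, Finset.mem_biUnion] at hy
        rw [Finset.mem_biUnion]
        obtain ⟨t, ht, hty⟩ := hy.1.resolve_left hy.2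
        refine ⟨t, ht, ?_⟩
        rw [Finset.mem_image] at hty ⊢
        obtain ⟨y', hy', rfl⟩ := hty
        exact ⟨y', Finset.mem_filter.2 ⟨hy', hy.2⟩, rfl⟩
      have h5 : ((V \ W).card : ℝ) ≤ ∑ t ∈ T, ((W.filter fun y => t⁻¹ • y ∉ W).card : ℝ) := by
        have h7 : (V \ W).card ≤ ∑ t ∈ T, (W.filter fun y => t⁻¹ • y ∉ W).card :=
          (Finset.card_le_card h4).trans (Finset.card_biUnion_le.trans
            (Finset.sum_le_sum fun t _ => Finset.card_image_le))
        exact_mod_cast h7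
      refine h5.trans ((Finset.sum_le_sum hb').trans ?_)
      rw [Finset.sum_const, nsmul_eq_mul]
    have h6 := mul_le_mul_of_nonneg_left h3 hL
    linarith

end

end Pool.Agent.X190.AT
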